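import Pool.Agent.Lib.JR28.Fek

/-! Tools for the patching construction. -/

set_option autoImplicit false

open Polynomial Finset Filter

namespace Pool.Agent.Lib.JR28

open Pool.Agent.Lib.MP_be0b77_nt

theorem desc (W : ℕ → ℤ[X]) (hW : ∀ k, (W k).Monic ∧ (W k).natDegree = k) (B : ℕ → ℝ[X])
    (hB : ∀ k, (B k).Monic ∧ (B k).natDegree = k) (N : ℤ) (n0 : ℕ) (b : ℕ → ℝ)
    (hb : ∀ k, n0 ≤ k → b k = 0) (G : ℕ → (ℕ → ℤ) → Prop)
    (hG : ∀ k Δ Δ', (∀ j, k ≤ j → Δ' j = Δ j) → G k Δ → G k Δ') (M : ℕ)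
    (hs : ∀ k < M, ∀ (Δ : ℕ → ℤ) (x : ℝ), (n0 ≤ k → ∃ z : ℤ, x = (N * z : ℤ)) →
      ∃ z : ℤ, |z - x| ≤ b k ∧ G k (Function.update Δ k z)) (R : ℝ[X])
    (h1 : ∀ i, M ≤ i → R.coeff i = 0) (h2 : ∀ i, n0 ≤ i → ∃ z : ℤ, R.coeff i = (N * z : ℤ))
    (Δ : ℕ → ℤ) : ∃ (Δ' : ℕ → ℤ) (μ : ℕ → ℝ), (∀ j, M ≤ j → Δ' j = Δ j) ∧
      (∀ k < M, G k Δ' ∧ |μ k| ≤ b k) ∧ R + ∑ k ∈ range M, C (μ k) * B k =
        (∑ k ∈ range M, C (Δ' k) * W k).map (Int.castRingHom ℝ) := by
  induction M generalizing R Δ with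
  | zero => exact ⟨Δ, 0, fun _ _ => rfl, by simp, by ext i; simp [h1 i i.zero_le]⟩
  | succ M ih =>
    obtain ⟨z, z1, z2⟩ := hs M M.lt_succ_self Δ (R.coeff M) (h2 M)
    have e : ∀ i, M ≤ i → (R + C (z - R.coeff M) * B M -
        (C z * W M).map (Int.castRingHom ℝ)).coeff i = 0 := fun i hi => by
      rw [coeff_sub, coeff_add, coeff_C_mul, coeff_map, coeff_C_mul]
      rcases hi.eq_or_lt with rfl | hi
      · have a := (hB M).1.coeff_natDegree
        have b := (hW M).1.coeff_natDegree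
        rw [(hB M).2] at a
        rw [(hW M).2] at b
        simp [a, b]
      · rw [h1 i hi, coeff_eq_zero_of_natDegree_lt ((hB M).2.trans_lt hi),
          coeff_eq_zero_of_natDegree_lt ((hW M).2.trans_lt hi)]
        simp
    obtain ⟨Δ', μ, a1, a2, a3⟩ := ih (fun k hk => hs k (hk.trans M.lt_succ_self)) _ e
      (fun i hi => by
        rcases le_or_gt M i with h | h
        · exact ⟨0, by simp only [e i h, mul_zero, Int.cast_zero]⟩
        obtain ⟨u, hu⟩ := h2 M (hi.trans h.le)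
        obtain ⟨v, hv⟩ := h2 i hi
        rw [hb M (hi.trans h.le), abs_nonpos_iff] at z1
        refine ⟨v - u * (W M).coeff i, ?_⟩
        rw [z1, map_zero, zero_mul, add_zero, coeff_sub, coeff_map, coeff_C_mul, hv, eq_intCast,
          Int.cast_mul z, sub_eq_zero.1 z1, hu]
        push_cast
        ring) (Function.update Δ M z)
    refine ⟨Δ', Function.update μ M (z - R.coeff M), fun j hj => ?_, fun k hk => ?_, ?_⟩
    · rw [a1 j (Nat.le_of_succ_le hj), Function.update_of_ne (Nat.ne_of_gt hj)]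
    · rcases (Nat.le_of_lt_succ hk).eq_or_lt with rfl | hk
      · exact ⟨hG _ _ _ a1 z2, by rwa [Function.update_self]⟩
      · rw [Function.update_of_ne hk.ne]
        exact a2 k hk
    · rw [sum_range_succ, sum_range_succ, Polynomial.map_add, ← a3, a1 M le_rfl,
        Function.update_self, Function.update_self, sum_congr rfl fun k hk => by
          rw [Function.update_of_ne (mem_range.1 hk).ne]]
      ring

theorem top_dvd {c : ℤ} {u m i N r : ℕ} (h : (u : ℤ) ∣ i * c) (hm : u ∣ m) (hi : i < m)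
    (hr : m ≤ i + r) (hN : N * r.factorial ∣ u) : (N : ℤ) ∣ c := by
  obtain ⟨j, rfl⟩ := Nat.exists_eq_add_of_lt hi
  have h1 : (u : ℤ) ∣ (j + 1 : ℕ) * c := by
    have := dvd_sub ((Int.natCast_dvd_natCast.2 hm).mul_right c) h
    rwa [show ((i + j + 1 : ℕ) : ℤ) * c - i * c = (j + 1 : ℕ) * c by push_cast; ring] at this
  have h2 : (j + 1) * N ∣ u := (mul_comm N _ ▸ Nat.mul_dvd_mul_left N
    (Nat.dvd_factorial j.succ_pos (by omega))).trans hN
  exact (mul_dvd_mul_iff_left (Int.natCast_ne_zero.2 j.succ_ne_zero)).1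
    ((Int.natCast_mul _ _ ▸ Int.natCast_dvd_natCast.2 h2).trans h1)

/-- Falling factorials with step `Q`. -/
noncomputable def wt (Q k : ℕ) : ℤ[X] := ∏ i ∈ range k, (X - C ((Q : ℤ) * i))

theorem wt_monic (Q k : ℕ) : (wt Q k).Monic ∧ (wt Q k).natDegree = k :=
  ⟨monic_prod_X_sub_C _ _, by rw [wt, natDegree_finsetProd_X_sub_C_eq_card, card_range]⟩

theorem wt_mod (Q N u : ℕ) : (wt Q (N * u)).map (Int.castRingHom (ZMod N)) =
    (wt Q N ^ u).map (Int.castRingHom (ZMod N)) := by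
  induction u with
  | zero => simp [wt]
  | succ u ih =>
    rw [pow_succ, Polynomial.map_mul, ← ih, mul_add_one, wt, prod_range_add, Polynomial.map_mul]
    simp [wt, Polynomial.map_prod]

theorem wt_coeff {Q N u i r : ℕ} (hi : i < N * u) (hr : N * u ≤ i + r)
    (hN : N * r.factorial ∣ u) : (N : ℤ) ∣ (wt Q (N * u)).coeff i := by
  have h := congrArg (coeff · i) (wt_mod Q N u)
  simp only [coeff_map, eq_intCast] at h
  rw [← ZMod.intCast_zmod_eq_zero_iff_dvd, h, ZMod.intCast_zmod_eq_zero_iff_dvd]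
  refine top_dvd ?_ (dvd_mul_left u N) hi hr hN
  rcases i with _ | i
  · simp
  have h2 := congrArg (coeff · i) (derivative_pow (wt Q N) u)
  simp only [coeff_derivative, mul_assoc, coeff_C_mul] at h2
  exact ⟨_, by rw [← h2]; push_cast; ring⟩

theorem wt_mod' (Q k : ℕ) : (wt Q k).map (Int.castRingHom (ZMod Q)) = X ^ k := by
  simp [wt, Polynomial.map_prod]

theorem sp_le {S : Finset ℕ} (hS : ∀ p ∈ S, p.Prime) {a j : ℕ} (ha : 0 < a) (hj : j ≤ a) :
    (sp S (a.descFactorial j) : ℝ) ≤ a ^ S.card * Wt S ^ j := by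
  rw [sp, Wt, Real.exp_sum, ← prod_pow, ← prod_const, ← prod_mul_distrib, Nat.cast_prod]
  refine prod_le_prod (fun _ _ => Nat.cast_nonneg _) fun p hp => ?_
  rw [Nat.descFactorial_eq_factorial_mul_choose, Nat.factorization_mul j.factorial_ne_zero
    (Nat.choose_pos hj).ne', Finsupp.add_apply, pow_add, Nat.cast_mul, mul_comm, ← Real.exp_nat_mul]
  refine mul_le_mul (by exact_mod_cast Nat.pow_factorization_choose_le ha) ?_ (Nat.cast_nonneg _)
    (Nat.cast_nonneg _)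
  rw [Nat.cast_pow]
  exact (exp_om (hS p hp) _ _).2 (by
    have := legendre (hS p hp) j
    linarith [Nat.cast_nonneg (α := ℝ) (p.digits j).sum])

theorem avoid {T : Type} (s : Finset T) (bad : T → ℕ → Prop)
    (h : ∀ t ∈ s, ∀ i ≤ s.card, ∀ j ≤ s.card, bad t i → bad t j → i = j) :
    ∃ j ≤ s.card, ∀ t ∈ s, ¬bad t j := by
  by_contra! hc
  choose f h1 h2 using hc
  obtain ⟨i, -, j, -, hij, e⟩ := exists_ne_map_eq_of_card_lt_of_maps_to
    (s := (univ : Finset (Fin (s.card + 1)))) (t := s) (by simp)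
    (f := fun i => f i (Nat.le_of_lt_succ i.2)) fun i _ => h1 _ _
  exact hij (Fin.ext (h _ (h1 _ _) _ (Nat.le_of_lt_succ i.2) _ (Nat.le_of_lt_succ j.2) (h2 _ _)
    (by rw [e]; exact h2 _ _)))

theorem roots_B {l : ℝ} (hl : 0 < l) (m : ℕ) (μ : ℕ → ℝ)
    (h : ∑ k ∈ range (m + 1), |μ k| * l ^ k < l ^ (m + 1)) (z : ℂ)
    (hz : aeval z (B l (m + 1) + ∑ k ∈ range (m + 1), C (μ k) * B l k) = 0) :
    z.im = 0 ∧ 0 ≤ z.re ∧ z.re ≤ 4 * l := by
  have hd : (∑ k ∈ range (m + 1), C (μ k) * B l k).degree < (B l (m + 1)).degree := by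
    rw [degree_eq_natDegree (B_monic l _).ne_zero, B_natDegree, degree_lt_iff_coeff_zero]
    intro i hi
    rw [finsetSum_coeff]
    exact sum_eq_zero fun k hk => by
      rw [coeff_C_mul, coeff_eq_zero_of_natDegree_lt
        ((B_natDegree l k).trans_lt ((mem_range.1 hk).trans_le hi)), mul_zero]
  have hn : (0 : ℝ) < (m + 1 : ℕ) := by positivity
  refine roots_of_alternation _ (m + 1) ((B_monic l _).add_of_left hd).ne_zero
    (by rw [natDegree_add_eq_left_of_degree_lt hd, B_natDegree])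
    (fun i => l * (2 + 2 * Real.cos (i * Real.pi / (m + 1 : ℕ)))) 0 (4 * l) (fun i hi => ?_)
    (fun i _ => ?_) (fun i _ => ?_) z hz
  · have hi' : ((i + 1 : ℕ) : ℝ) ≤ (m + 1 : ℕ) := by exact_mod_cast hi
    have := Real.cos_lt_cos_of_nonneg_of_le_pi (x := i * Real.pi / (m + 1 : ℕ))
      (y := (i + 1 : ℕ) * Real.pi / (m + 1 : ℕ)) (by positivity)
      (by rw [div_le_iff₀ hn]; nlinarith [Real.pi_pos])
      (div_lt_div_of_pos_right (by push_cast; linarith [Real.pi_pos]) hn)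
    exact mul_lt_mul_of_pos_left (by linarith) hl
  · have h1 := Real.neg_one_le_cos (i * Real.pi / (m + 1 : ℕ))
    have h2 := Real.cos_le_one (i * Real.pi / (m + 1 : ℕ))
    constructor <;> nlinarith
  · have h1 : |(∑ k ∈ range (m + 1), C (μ k) * B l k).eval
        (l * (2 + 2 * Real.cos (i * Real.pi / (m + 1 : ℕ))))| ≤
        2 * ∑ k ∈ range (m + 1), |μ k| * l ^ k := by
      rw [eval_finsetSum, mul_sum]
      refine (abs_sum_le_sum_abs _ _).trans (sum_le_sum fun k _ => ?_)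
      rw [eval_mul, eval_C, abs_mul, mul_left_comm]
      exact mul_le_mul_of_nonneg_left (B_bound l hl.le k _) (abs_nonneg _)
    rw [eval_add, B_eval, mul_div_cancel₀ _ hn.ne', Real.cos_nat_mul_pi]
    have h2 := abs_le.1 h1
    rcases neg_one_pow_eq_or ℝ i with h | h <;> rw [h] <;> linarith [h2.1, h2.2]

variable {p : ℕ} [hp : Fact p.Prime]

theorem norm_dvd {a b : ℤ} (h : a ∣ b) : ‖(b : ℚ_[p])‖ ≤ ‖(a : ℚ_[p])‖ := by
  obtain ⟨c, rfl⟩ := h
  rw [Int.cast_mul, norm_mul]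
  exact mul_le_of_le_one_right (norm_nonneg _) (Padic.norm_int_le_one c)

theorem norm_md {S : Finset ℕ} (h : p ∈ S) {d e : ℕ} (hd : d ≠ 0) (he : sp S d ∣ e) (t : ℕ) {z : ℤ}
    (hz : ((e * (∏ q ∈ S, q) ^ t : ℕ) : ℤ) ∣ z) : ‖(z : ℚ_[p])‖ ≤ ‖(d : ℚ_[p])‖ * (1 / 2) ^ t := by
  have h1 : p ^ d.factorization p * p ^ t ∣ e * (∏ q ∈ S, q) ^ t :=
    mul_dvd_mul ((dvd_prod_of_mem (fun p => p ^ d.factorization p) h).trans he)
      (pow_dvd_pow_of_dvd (dvd_prod_of_mem (fun p => p) h) t)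
  refine (norm_dvd ((Int.natCast_dvd_natCast.2 h1).trans hz)).trans ?_
  have h2 : (2 : ℝ) ≤ p := by exact_mod_cast hp.out.two_le
  rw [norm_nat hd]
  simp only [Nat.cast_mul, Nat.cast_pow, Int.cast_mul, Int.cast_pow, Int.cast_natCast, norm_mul,
    norm_pow, Padic.norm_p, inv_pow, one_div]
  gcongr

theorem ph_desc {a j : ℕ} (h : j ≤ a) :
    ‖((a.descFactorial (a - j) : ℕ) : ℚ_[p])‖ * ph p j = ph p a := by
  rw [ph, ph, ← Nat.factorial_mul_descFactorial (a.sub_le j), Nat.sub_sub_self h, Nat.cast_mul,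
    norm_mul, mul_comm]

end Pool.Agent.Lib.JR28
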