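import Mathlib

/-! Independence of two subfields of a Galois number field, by inertia groups. -/

open Polynomial NumberField

namespace Pool.Agent.Lib.JR28

variable {E : Type} [Field E] [NumberField E] [IsGalois ℚ E]

theorem card_inertia (P : Ideal (𝓞 E)) [P.IsMaximal] :
    Nat.card (P.inertia Gal(E/ℚ)) = P.ramificationIdx ℤ := by
  have := IsGaloisGroup.of_isFractionRing Gal(E/ℚ) ℤ (𝓞 E) ℚ E
  rw [Ideal.card_inertia_eq_ramificationIdxIn (P.under ℤ),
    Ideal.ramificationIdxIn_eq_ramificationIdx (P.under ℤ) P Gal(E/ℚ)]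

theorem inertia_gen (H : Subgroup Gal(E/ℚ))
    (h : ∀ P : Ideal (𝓞 E), P.IsMaximal → P.inertia Gal(E/ℚ) ≤ H) : H = ⊤ := by
  let F : IntermediateField ℚ E := FixedPoints.intermediateField H
  by_cases h1 : Module.finrank ℚ F = 1
  · rw [← Subgroup.card_eq_iff_eq_top, ← IsGaloisGroup.finrank_fixedPoints_eq_card_subgroup
      Gal(E/ℚ) ℚ E H, IsGalois.card_aut_eq_finrank, ← Module.finrank_mul_finrank ℚ F E, h1, one_mul]
  obtain ⟨P, hP, hr⟩ := NumberField.exists_not_isUnramifiedAt_int (𝒪 := 𝓞 F) h1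
  obtain ⟨Q, hQ, hl⟩ := Ideal.exists_maximal_ideal_liesOver_of_isIntegral (S := 𝓞 E) P
  have := IsGaloisGroup.of_isFractionRing H (𝓞 F) (𝓞 E) F E
  have h2 := Ideal.card_inertia_eq_ramificationIdxIn (G := H) P Q
  rw [Ideal.ramificationIdxIn_eq_ramificationIdx P Q H, Ideal.inertia,
    ← AddSubgroup.subgroupOf_inertia,
    Nat.card_congr (Subgroup.subgroupOfEquivOfLe (h Q hQ)).toEquiv, card_inertia,
    Ideal.ramificationIdx_tower P Q] at h2
  exact absurd (Ideal.ramificationIdx_eq_one_iff.1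
    (mul_left_eq_self₀.1 h2 |>.resolve_right (Q.ramificationIdx_pos _).ne')) hr

theorem norm_le_one {p : ℕ} [Fact p.Prime] {x : ℚ_[p]} (h : IsIntegral ℤ x) : ‖x‖ ≤ 1 := by
  obtain ⟨c, rfl⟩ := IsIntegrallyClosed.isIntegral_iff.1 (h.tower_top (A := ℤ_[p]))
  exact c.2

theorem inertia_split {p : ℕ} [hp : Fact p.Prime] (ι : E →+* ℚ_[p]) (P : Ideal (𝓞 E))
    [P.IsMaximal] (h : (p : 𝓞 E) ∈ P) : P.inertia Gal(E/ℚ) = ⊥ := by
  let φ : 𝓞 E →+* ℤ_[p] := (ι.comp (algebraMap (𝓞 E) E)).codRestrict (PadicInt.subring p)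
    fun x => norm_le_one (x.isIntegral_coe.map ι.toIntAlgHom)
  let Q := (Ideal.span {(p : ℤ_[p])}).comap φ
  have p0 := Nat.prime_iff_prime_int.1 hp.out
  have : Q.IsPrime := Ideal.comap_isPrime (H := (Ideal.span_singleton_prime
    PadicInt.prime_p.ne_zero).2 PadicInt.prime_p) _ _
  have h1 : (p : 𝓞 E) ∈ Q := by simp [Q]
  have := (Ideal.liesOver_span_iff (P := Q) Ideal.IsPrime.ne_top' p0).2 (by simpa using h1)
  have := (Ideal.liesOver_span_iff (P := P) Ideal.IsPrime.ne_top' p0).2 (by simpa using h)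
  have := IsGaloisGroup.of_isFractionRing Gal(E/ℚ) ℤ (𝓞 E) ℚ E
  rw [← Subgroup.card_eq_one, card_inertia, Ideal.ramificationIdx_eq_of_isGaloisGroup
    (Ideal.span {(p : ℤ)}) P Q Gal(E/ℚ), ← Ideal.ramificationIdx'_eq_ramificationIdx
    (Ideal.span {(p : ℤ)}) Q (by simpa using hp.out.ne_zero)]
  refine Ideal.ramificationIdx'_spec (by simpa [Ideal.map_span] using h1) fun h2 => ?_
  have h3 := Ideal.le_comap_pow φ 2 (h2 (Ideal.mem_map_of_mem _ (Ideal.mem_span_singleton_self _)))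
  rw [Ideal.mem_comap, Ideal.span_singleton_pow, Ideal.mem_span_singleton, sq] at h3
  exact PadicInt.prime_p.not_isUnit (PadicInt.prime_p.squarefree _ (by simpa using h3))

theorem indep (S : Finset ℕ) (hS : ∀ p ∈ S, ∀ [Fact p.Prime], Nonempty (E →+* ℚ_[p]))
    (Y : Set E) (hY : ∀ y ∈ Y, IsIntegral ℤ y ∧ ∀ σ : Gal(E/ℚ), σ y ∈ Y) (N Q : ℕ)
    (hN : ∀ y ∈ Y, ∀ z ∈ Y, y ≠ z → IsIntegral ℤ (N / (y - z)))
    (hQ : ∀ q : ℕ, q.Prime → q ∣ N → q ∈ S ∨ q ∣ Q) (F : ℤ[X]) (hF : F.Monic)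
    (hd : C (Q : ℤ) ∣ derivative F - 1) (σ : Gal(E/ℚ)) :
    ∃ τ : Gal(E/ℚ), (∀ y ∈ Y, τ y = y) ∧ ∀ r : E, aeval r F = 0 → σ r = τ r := by
  have : (fixingSubgroup Gal(E/ℚ) Y).Normal := ⟨fun n hn g => by
    rw [mem_fixingSubgroup_iff] at hn ⊢
    intro y hy
    rw [mul_smul, mul_smul, hn (g⁻¹ • y) ((hY y hy).2 g⁻¹), smul_inv_smul]⟩
  have h := inertia_gen (fixingSubgroup Gal(E/ℚ) Y ⊔
    fixingSubgroup Gal(E/ℚ) {r : E | aeval r F = 0}) fun P hP => by
      obtain ⟨q, -, -, h1, h2, -⟩ := P.exists_prime_and_absNorm_eq_pow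
      by_cases h3 : q ∣ N
      · rcases hQ q h2 h3 with h4 | ⟨c, rfl⟩
        · have := Fact.mk h2
          rw [inertia_split (hS q h4).some P h1]
          exact bot_le
        refine le_sup_of_le_right fun τ hτ => (mem_fixingSubgroup_iff _).2 fun r hr => ?_
        let x : 𝓞 E := ⟨r, F, hF, hr⟩
        have e : ∀ y : 𝓞 E, aeval (y : E) F = 0 → (F.map (algebraMap ℤ (𝓞 E))).eval y = 0 :=
          fun y hy => by
            rw [eval_map_algebraMap]
            exact RingOfIntegers.ext ((aeval_algebraMap_apply E y F).symm.trans hy)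
        obtain ⟨k, hk⟩ := (F.map (algebraMap ℤ (𝓞 E))).binomExpansion x (τ • x - x)
        obtain ⟨G, hG⟩ := hd
        rw [add_sub_cancel, e x hr, e (τ • x) (by
          have := aeval_algHom_apply (τ.toAlgHom.restrictScalars ℤ) r F
          rw [show aeval r F = 0 from hr, map_zero] at this
          exact this), derivative_map, eq_add_of_sub_eq hG] at hk
        simp only [Polynomial.map_add, Polynomial.map_mul, eval_add, eval_mul, eval_natCast,
          Polynomial.map_one, eval_one, Nat.cast_mul, map_mul, map_natCast, Polynomial.map_natCast] at hk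
        by_contra h5
        have h6 : τ • x - x ≠ 0 := fun h => h5 (congrArg (fun y : 𝓞 E => (y : E)) (sub_eq_zero.1 h))
        refine hP.ne_top ((Ideal.eq_top_iff_one _).2 ?_)
        rw [show (1 : 𝓞 E) = -k * (τ • x - x) - c * eval x (G.map (algebraMap ℤ (𝓞 E))) * q from
          mul_right_cancel₀ h6 (by linear_combination -hk)]
        exact sub_mem (P.mul_mem_left _ (hτ x)) (P.mul_mem_left _ h1)
      · refine le_sup_of_le_left fun τ hτ => (mem_fixingSubgroup_iff _).2 fun y hy => ?_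
        by_contra h5
        let x : 𝓞 E := ⟨y, (hY y hy).1⟩
        let z : 𝓞 E := ⟨_, hN _ ((hY y hy).2 τ) y hy h5⟩
        have h6 : (N : 𝓞 E) = z * (τ • x - x) := RingOfIntegers.ext (by
          simp only [map_natCast, map_mul, map_sub]
          exact (div_mul_cancel₀ _ (sub_ne_zero.2 h5)).symm)
        obtain ⟨a, b, h7⟩ := Nat.isCoprime_iff_coprime.2 ((Nat.Prime.coprime_iff_not_dvd h2).2 h3)
        have h8 := congrArg (Int.cast : ℤ → 𝓞 E) h7
        push_cast at h8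
        refine hP.ne_top ((Ideal.eq_top_iff_one _).2 ?_)
        rw [← h8, h6]
        exact add_mem (P.mul_mem_left _ h1) (P.mul_mem_left _ (P.mul_mem_left _ (hτ x)))
  obtain ⟨τ, h1, n, h2, rfl⟩ := Subgroup.mem_sup_of_normal_left.1 (h ▸ Subgroup.mem_top σ)
  rw [mem_fixingSubgroup_iff] at h1 h2
  exact ⟨τ, h1, fun r hr => congrArg τ (h2 r hr)⟩

end Pool.Agent.Lib.JR28
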