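import Pool.Agent.Lib.JR28.Pad
import Pool.Agent.Lib.JR28.Gal
import Pool.Agent.Lib.MP_be0b77_nt.Robinson

/-! A Fekete type finiteness theorem with splitting conditions at finitely many primes. -/

set_option autoImplicit false

open Polynomial Finset Filter

namespace Pool.Agent.Lib.JR28

open Pool.Agent.Lib.MP_be0b77_nt

/-- The local weight of a prime. -/
noncomputable def om (p : ℕ) : ℝ := Real.log p / (p - 1)

/-- The weight of a finite set of primes. -/
noncomputable def Wt (S : Finset ℕ) : ℝ := Real.exp (∑ p ∈ S, om p)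

/-- The part of `z` supported on `S`. -/
def sp (S : Finset ℕ) (z : ℕ) : ℕ := ∏ p ∈ S, p ^ z.factorization p

theorem sp_dvd {S : Finset ℕ} (hS : ∀ p ∈ S, p.Prime) (z : ℕ) : sp S z ∣ z :=
  Finset.prod_dvd_of_isRelPrime (fun p hp q hq h => Nat.coprime_iff_isRelPrime.1
    (Nat.coprime_pow_primes _ _ (hS p hp) (hS q hq) h)) fun p _ => Nat.ordProj_dvd z p

theorem exp_om {p : ℕ} (hp : p.Prime) (x : ℝ) (k : ℕ) :
    (x ≤ (p - 1) * k → Real.exp (x * om p) ≤ (p : ℝ) ^ k) ∧
      ((p - 1) * k ≤ x → (p : ℝ) ^ k ≤ Real.exp (x * om p)) := by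
  have h1 : (1 : ℝ) < p := by exact_mod_cast hp.one_lt
  have h2 : (p : ℝ) ^ k = Real.exp ((p - 1) * k * om p) := by
    rw [om, show ((p : ℝ) - 1) * k * (Real.log p / (p - 1)) = k * Real.log p by
      field_simp [(sub_pos.2 h1).ne'], Real.exp_nat_mul, Real.exp_log (by linarith)]
  have h3 : 0 ≤ om p := div_nonneg (Real.log_nonneg h1.le) (by linarith)
  rw [h2]
  exact ⟨fun h => Real.exp_le_exp.2 (mul_le_mul_of_nonneg_right h h3),
    fun h => Real.exp_le_exp.2 (mul_le_mul_of_nonneg_right h h3)⟩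

theorem legendre {p : ℕ} (hp : p.Prime) (k : ℕ) :
    ((p : ℝ) - 1) * k.factorial.factorization p + (p.digits k).sum = k := by
  have := Fact.mk hp
  have h := sub_one_mul_padicValNat_factorial (p := p) k
  rw [← Nat.factorization_def _ hp, eq_tsub_iff_add_eq_of_le (Nat.digit_sum_le p k)] at h
  rw [← Nat.cast_pred hp.pos]
  exact_mod_cast h

theorem ph_le {p : ℕ} [hp : Fact p.Prime] (k : ℕ) :
    ph p k ≤ p * (k + 1) * Real.exp (-om p) ^ k := by
  have h0 : (0 : ℝ) < p := by exact_mod_cast hp.out.pos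
  have h1 : (p.digits k).sum ≤ (p.digits k).length * (p - 1) :=
    List.sum_le_card_nsmul _ _ fun x hx => Nat.le_sub_one_of_lt (Nat.digits_lt_base hp.out.one_lt hx)
  have h2 : p ^ (p.digits k).length ≤ p * (k + 1) := by
    rcases eq_or_ne k 0 with rfl | h
    · simpa using hp.out.one_le
    · exact (Nat.base_pow_length_digits_le p k hp.out.one_lt h).trans (by gcongr; omega)
  have h3 : (((p.digits k).sum : ℕ) : ℝ) ≤ (p.digits k).length * (p - 1) := by
    rw [← Nat.cast_pred hp.out.pos]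
    exact_mod_cast h1
  have h4 := (exp_om hp.out k (k.factorial.factorization p + (p.digits k).length)).1 (by
    have := legendre hp.out k
    push_cast
    linarith)
  have h5 : (p : ℝ) ^ (p.digits k).length ≤ p * (k + 1) := by exact_mod_cast h2
  rw [ph, norm_nat k.factorial_ne_zero, Real.exp_neg, inv_pow, ← Real.exp_nat_mul,
    ← div_eq_mul_inv, le_div_iff₀ (Real.exp_pos _), inv_mul_le_iff₀ (by positivity)]
  exact h4.trans (by rw [pow_add]; gcongr)

theorem res_norm {k : Type} [NormedField k] (f : ℤ[X]) (hf : f.Monic)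
    (hs : (f.map (Int.castRingHom k)).Splits) (P : ℕ → k[X]) (h1 : ∀ j, (P j).natDegree = j)
    (h2 : ∀ j, (P j).Monic) : ∃ y : Fin f.natDegree → k, (∀ i, aeval (y i) f = 0) ∧
      ‖((resultant f (derivative f) : ℤ) : k)‖ =
        ‖∑ σ : Equiv.Perm (Fin f.natDegree), (Equiv.Perm.sign σ : ℤ) *
          ∏ j : Fin f.natDegree, (P j).eval (y (σ j))‖ ^ 2 := by
  classical
  have hm := hf.map (Int.castRingHom k)
  obtain ⟨l, hl⟩ := Quotient.exists_rep (f.map (Int.castRingHom k)).roots
  have hc : l.length = f.natDegree := by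
    rw [← hf.natDegree_map (Int.castRingHom k), hs.natDegree_eq_card_roots, ← hl]
    rfl
  obtain ⟨y, hy⟩ : ∃ y : Fin f.natDegree → k, (f.map (Int.castRingHom k)).roots = univ.val.map y := by
    rw [← hc]
    exact ⟨l.get, by rw [Fin.univ_val_map, List.ofFn_get, ← hl]; rfl⟩
  have e : f.map (Int.castRingHom k) = Lagrange.nodal univ y := by
    rw [hs.eq_prod_roots_of_monic hm, hy, Multiset.map_map]
    rfl
  refine ⟨y, fun i => ?_, ?_⟩
  · rw [aeval_def, eval₂_eq_eval_map]
    exact e ▸ Lagrange.eval_nodal_at_node (mem_univ i)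
  have e2 := resultant_eq_prod_eval _ ((derivative f).map (Int.castRingHom k)) _
    natDegree_map_le hs
  rw [hf.natDegree_map, resultant_map_map, hm.leadingCoeff, one_pow, one_mul, hy, Multiset.map_map,
    ← derivative_map, e] at e2
  have e3 := Matrix.det_eval_matrixOfPolynomials_eq_det_vandermonde y (fun j => P j)
    (fun j => h1 j) fun j => h2 j
  rw [Matrix.det_apply' (Matrix.of _), Matrix.det_vandermonde] at e3
  simp only [Matrix.of_apply] at e3
  rw [← e3, show ((resultant f (derivative f) : ℤ) : k) = ∏ i, ∏ j ∈ {i}ᶜ, (y i - y j) from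
    e2.trans (prod_congr rfl fun i _ => by
      rw [Function.comp, Lagrange.eval_nodal_derivative_eval_node_eq (mem_univ i),
        Lagrange.eval_nodal, compl_singleton]),
    ← prod_prod_Ioi_mul_eq_prod_prod_off_diag (fun j i => y i - y j)]
  simp only [norm_prod, norm_mul, ← prod_pow]
  exact prod_congr rfl fun i _ => prod_congr rfl fun j _ => by rw [norm_sub_rev (y i), sq]

theorem norm_term {k : Type} [NormedField k] {n : ℕ} (σ : Equiv.Perm (Fin n)) (A : Fin n → k)
    (b : ℕ → ℝ) (h : ∀ j, ‖A j‖ ≤ b j) :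
    ‖((Equiv.Perm.sign σ : ℤ) : k) * ∏ j, A j‖ ≤ ∏ j ∈ range n, b j := by
  rw [← Fin.prod_univ_eq_prod_range, norm_mul, norm_prod]
  rcases Int.units_eq_one_or (Equiv.Perm.sign σ) with h1 | h1 <;>
    simpa [h1] using prod_le_prod (fun _ _ => norm_nonneg _) fun j _ => h j

theorem exists_cos {l x : ℝ} (hl : 0 < l) (h : x ∈ Set.Icc 0 (4 * l)) :
    ∃ t, x = l * (2 + 2 * Real.cos t) := by
  have h1 : 0 ≤ x / l := div_nonneg h.1 hl.le
  have h2 : x / l ≤ 4 := (div_le_iff₀ hl).2 h.2
  refine ⟨Real.arccos ((x / l - 2) / 2), ?_⟩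
  rw [Real.cos_arccos (by linarith) (by linarith)]
  field_simp
  ring

theorem fekete (S : Finset ℕ) (hS : ∀ p ∈ S, p.Prime) {a : ℝ} (ha : 0 < a) (h : a < 4 * Wt S) :
    ∃ D : ℕ, ∀ f : ℤ[X], f.Monic → (f.map (Int.castRingHom ℂ)).Separable →
      (∀ z : ℂ, aeval z f = 0 → z.im = 0 ∧ z.re ∈ Set.Icc 0 a) →
      (∀ p ∈ S, ∀ [Fact p.Prime], (f.map (Int.castRingHom ℚ_[p])).Splits) → f.natDegree < D := by
  have W0 : 0 < Wt S := Real.exp_pos _
  set θ := √(a / 4 / Wt S) with hθ
  have θ0 : 0 < θ := by positivity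
  have θ1 : θ < 1 := by
    rw [hθ, Real.sqrt_lt' one_pos, one_pow, div_lt_one W0]
    linarith
  have θ2 : θ ^ 2 = a / 4 / Wt S := Real.sq_sqrt (by positivity)
  have P0 : (0 : ℝ) < ∏ p ∈ S, (p : ℝ) := prod_pos fun p hp => by exact_mod_cast (hS p hp).pos
  obtain ⟨D, hD⟩ := eventually_atTop.1 ((tendsto_pow_const_mul_const_pow_of_abs_lt_one (S.card + 1)
    (r := θ) (by rwa [abs_of_pos θ0])).eventually_lt_const
    (show 0 < θ / (2 * ∏ p ∈ S, (p : ℝ)) by positivity))
  refine ⟨D + 1, fun f hf h1 h2 h3 => ?_⟩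
  by_contra hn
  set n := f.natDegree with hn'
  have n0 : 0 < n := by omega
  set z := (resultant f (derivative f)).natAbs with hz
  have z0 : z ≠ 0 := by
    have := resultant_ne_zero _ _ h1
    rw [derivative_map, natDegree_map_eq_of_injective (RingHom.injective_int _),
      natDegree_map_eq_of_injective (RingHom.injective_int _), resultant_map_map] at this
    exact Int.natAbs_ne_zero.2 fun h => this (by rw [h, map_zero])
  have nz : ∀ (k : Type) [NormedField k], ‖(z : k)‖ = ‖((resultant f (derivative f) : ℤ) : k)‖ :=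
    fun k _ => by
      rw [← Int.cast_natCast, hz, Int.natCast_natAbs]
      rcases abs_choice (resultant f (derivative f)) with h | h <;> rw [h]
      rw [Int.cast_neg, norm_neg]
  have a1 : (z : ℝ) ≤ (n.factorial * ∏ j ∈ range n, 2 * (a / 4) ^ j) ^ 2 := by
    obtain ⟨y, y1, y2⟩ := res_norm f hf (IsAlgClosed.splits _)
      (fun j => (B (a / 4) j).map (algebraMap ℝ ℂ))
      (fun j => by rw [natDegree_map, B_natDegree]) fun j => (B_monic _ j).map _
    rw [← Complex.norm_natCast, nz, y2]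
    gcongr
    refine (norm_sum_le_of_le _ fun σ _ => norm_term σ _ (fun j => 2 * (a / 4) ^ j)
      fun j => ?_).trans_eq
      (by rw [sum_const, card_univ, Fintype.card_perm, Fintype.card_fin, nsmul_eq_mul])
    obtain ⟨c1, c2⟩ := h2 _ (y1 (σ j))
    obtain ⟨t, ht⟩ := exists_cos (l := a / 4) (by positivity) (by rwa [mul_div_cancel₀ _ four_ne_zero])
    rw [show y (σ j) = algebraMap ℝ ℂ (y (σ j)).re from Complex.ext rfl c1, eval_map_apply, ht]
    exact (Complex.norm_real _).trans_le (B_bound _ (by positivity) _ _)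
  have a2 : ∀ p ∈ S, ((p : ℝ) ^ z.factorization p)⁻¹ ≤
      (∏ j ∈ range n, p * (n * Real.exp (-om p) ^ j)) ^ 2 := fun p hp => by
    have := Fact.mk (hS p hp)
    obtain ⟨y, y1, y2⟩ := res_norm f hf (h3 p hp) (fun j => ∏ i ∈ range j, (X - C (i : ℚ_[p])))
      (fun j => by rw [natDegree_finsetProd_X_sub_C_eq_card, card_range])
      fun j => monic_prod_X_sub_C _ _
    rw [← norm_nat z0, nz, y2]
    gcongr
    refine (IsUltrametricDist.norm_sum_le_of_forall_le_of_nonneg
      (prod_nonneg fun j _ => (ph_pos j).le) fun σ _ => norm_term σ _ (ph p) fun j => ?_).trans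
      (prod_le_prod (fun j _ => (ph_pos j).le) fun j hj => (ph_le j).trans ?_)
    · simp only [eval_prod, eval_sub, eval_X, eval_C]
      exact norm_ff (norm_le_one ⟨f, hf, y1 _⟩) _
    · rw [mul_assoc]
      gcongr
      exact_mod_cast mem_range.1 hj
  have a3 : (∏ p ∈ S, (p : ℝ) ^ z.factorization p) ≤ z := by
    exact_mod_cast Nat.le_of_dvd (Nat.pos_of_ne_zero z0) (sp_dvd hS z)
  have a4 := prod_le_prod (fun p _ => by positivity) a2
  rw [prod_inv_distrib, inv_le_iff_one_le_mul₀ (prod_pos fun p hp => pow_pos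
    (by exact_mod_cast (hS p hp).pos) _), prod_pow, Finset.prod_comm] at a4
  have a5 := a4.trans (mul_le_mul_of_nonneg_left (a3.trans a1) (sq_nonneg _))
  rw [← mul_pow, one_le_sq_iff_one_le_abs, abs_of_nonneg (by positivity)] at a5
  have a6 : (n.factorial : ℝ) ≤ ∏ j ∈ range n, (n : ℝ) := by
    rw [prod_const, card_range]
    exact_mod_cast Nat.factorial_le_pow n
  have a7 := a5.trans (mul_le_mul_of_nonneg_left (mul_le_mul_of_nonneg_right a6 (by positivity))
    (by positivity))
  rw [← prod_mul_distrib, ← prod_mul_distrib, prod_congr rfl (g := fun j =>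
    (2 * (∏ p ∈ S, (p : ℝ)) * n ^ (S.card + 1)) * θ ^ (j * 2)) fun j _ => by
      rw [prod_mul_distrib, prod_mul_distrib, prod_const, prod_pow, ← Real.exp_sum,
        sum_neg_distrib, Real.exp_neg, mul_comm j, pow_mul, θ2, div_pow _ (Wt S), inv_pow, Wt]
      ring, prod_mul_distrib, prod_const, card_range, prod_pow_eq_pow_sum, ← sum_mul,
    sum_range_id_mul_two, mul_comm n, pow_mul, ← mul_pow] at a7
  refine absurd (one_le_pow_iff_of_nonneg (by positivity) n0.ne' |>.1 a7) (not_le.2 ?_)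
  have a8 := hD n (by omega)
  rw [lt_div_iff₀ (by positivity)] at a8
  rw [show θ ^ n = θ ^ (n - 1) * θ by rw [← pow_succ, Nat.sub_add_cancel n0]] at a8
  exact lt_of_mul_lt_mul_right (a := θ) (by linarith) θ0.le

end Pool.Agent.Lib.JR28
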