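import Pool.Agent.Lib.JR28.Spl

/-! Fields generated by roots, and finiteness statements. -/

set_option autoImplicit false

open Polynomial Finset Filter NumberField IntermediateField

namespace Pool.Agent.Lib.JR28

/-- Algebraic integers with all conjugates in `[0, s]`. -/
def In (s : ℝ) (α : ℂ) : Prop :=
  IsIntegral ℤ α ∧ ∀ z : ℂ, IsConjRoot ℚ α z → z.im = 0 ∧ z.re ∈ Set.Icc 0 s

/-- Complex roots. -/
def Rt (g : ℤ[X]) : Set ℂ := {z | aeval z g = 0}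

/-- The field generated by the complex roots. -/
noncomputable def Lg (g : ℤ[X]) : IntermediateField ℚ ℂ := adjoin ℚ (Rt g)

theorem In.mono {s t : ℝ} {α : ℂ} (h : In s α) (hst : s ≤ t) : In t α :=
  ⟨h.1, fun z hz => ⟨(h.2 z hz).1, (h.2 z hz).2.1, (h.2 z hz).2.2.trans hst⟩⟩

theorem Rt_mul (f g : ℤ[X]) : Rt (f * g) = Rt f ∪ Rt g := by
  ext z
  simp [Rt]

theorem Rt_conj {g : ℤ[X]} {y z : ℂ} (hy : y ∈ Rt g) (h : IsConjRoot ℚ y z) : z ∈ Rt g := by
  have := aeval_eq_zero_of_dvd_aeval_eq_zero (minpoly.dvd ℚ y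
    ((aeval_map_algebraMap ℚ y g).trans hy)) h.aeval_eq_zero
  rwa [aeval_map_algebraMap] at this

theorem Rt_eq {g : ℤ[X]} (hg : g.Monic) : Rt g = (g.map (algebraMap ℤ ℚ)).rootSet ℂ := by
  ext z
  rw [mem_rootSet_of_ne (hg.map _).ne_zero, aeval_map_algebraMap]
  rfl

theorem Rt_fin {g : ℤ[X]} (hg : g.Monic) : (Rt g).Finite := Rt_eq hg ▸ rootSet_finite _ _

theorem Lg_split {g : ℤ[X]} (hg : g.Monic) : (g.map (algebraMap ℤ ℚ)).IsSplittingField ℚ (Lg g) := by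
  rw [Lg, Rt_eq hg]
  exact adjoin_rootSet_isSplittingField (IsAlgClosed.splits _)

theorem Lg_nf {g : ℤ[X]} (hg : g.Monic) : NumberField (Lg g) :=
  have := Lg_split hg
  have := IsSplittingField.finiteDimensional (Lg g) (g.map (algebraMap ℤ ℚ))
  ⟨⟩

theorem map_int {k : Type} [Field k] [Algebra ℚ k] (f : ℤ[X]) :
    (f.map (algebraMap ℤ ℚ)).map (algebraMap ℚ k) = f.map (Int.castRingHom k) := by
  rw [Polynomial.map_map]
  exact congrArg (f.map ·) (RingHom.ext_int _ _)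

theorem int_conj {y z : ℂ} (hy : IsIntegral ℤ y) (h : IsConjRoot ℚ y z) : IsIntegral ℤ z :=
  ⟨_, minpoly.monic hy, Rt_conj (minpoly.aeval ℤ y) h⟩

theorem poly_of_set (Z : Finset ℂ) (hZ : ∀ y ∈ Z, IsIntegral ℤ y) : ∃ f : ℤ[X], f.Monic ∧
    (f.map (algebraMap ℤ ℚ)).Separable ∧ (∀ z, z ∈ Rt f ↔ ∃ y ∈ Z, IsConjRoot ℚ y z) ∧
    ∀ (k : Type) [Field k] [Algebra ℚ k], (∀ y ∈ Z, ((minpoly ℚ y).map (algebraMap ℚ k)).Splits) →
      (f.map (Int.castRingHom k)).Splits := by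
  classical
  have e : ∀ y ∈ Z, (minpoly ℤ y).map (algebraMap ℤ ℚ) = minpoly ℚ y := fun y hy =>
    (minpoly.isIntegrallyClosed_eq_field_fractions' ℚ (hZ y hy)).symm
  have e2 : ∀ y ∈ Z, ∀ z : ℂ, aeval z (minpoly ℚ y) = 0 ↔ IsConjRoot ℚ y z := fun y hy z =>
    (isConjRoot_iff_aeval_eq_zero (hZ y hy).tower_top).symm
  refine ⟨∏ g ∈ Z.image (minpoly ℤ), g, monic_prod_of_monic _ _ ?_, ?_, fun z => ?_,
    fun k _ _ h => ?_⟩
  · exact forall_mem_image.2 fun y hy => minpoly.monic (hZ y hy)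
  · rw [Polynomial.map_prod]
    refine separable_prod' (forall_mem_image.2 fun y hy => forall_mem_image.2 fun y' hy' h => ?_)
      (forall_mem_image.2 fun y hy => ?_)
    · rw [isCoprime_iff_aeval_ne_zero_of_isAlgClosed ℚ ℂ]
      by_contra! hc
      obtain ⟨z, h1, h2⟩ := hc
      rw [e y hy, e2 y hy] at h1
      rw [e y' hy', e2 y' hy'] at h2
      exact h (map_injective _ (algebraMap ℤ ℚ).injective_int
        (by rw [e y hy, e y' hy']; exact h1.trans h2.symm))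
    · rw [e y hy]
      exact (minpoly.irreducible (hZ y hy).tower_top).separable
  · simp only [Rt, Set.mem_ofPred_eq, map_prod, prod_eq_zero_iff, exists_mem_image]
    exact exists_congr fun y => and_congr_right fun hy => by
      rw [← e2 y hy, ← e y hy, aeval_map_algebraMap]
  · rw [Polynomial.map_prod]
    exact Splits.prod (forall_mem_image.2 fun y hy => by rw [← map_int, e y hy]; exact h y hy)

/-- Integers with conjugates in `[0, a]`, totally `p`-adic for all `p` in `S`. -/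
def Bs (S : Finset ℕ) (a : ℝ) : Set ℂ :=
  {y | In a y ∧ ∀ p ∈ S, ∀ [Fact p.Prime], ((minpoly ℚ y).map (algebraMap ℚ ℚ_[p])).Splits}

theorem finB (S : Finset ℕ) (hS : ∀ p ∈ S, p.Prime) {a : ℝ} (ha : 0 < a) (h : a < 4 * Wt S) :
    (Bs S a).Finite := by
  by_contra hc
  obtain ⟨D, hD⟩ := fekete S hS ha h
  obtain ⟨Z, h1, h2⟩ := Set.Infinite.exists_subset_card_eq hc D
  obtain ⟨f, f1, f2, f3, f4⟩ := poly_of_set Z fun y hy => (h1 hy).1.1
  have := hD f f1 (map_int (k := ℂ) f ▸ f2.map) (fun z hz => by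
    obtain ⟨y, hy, hz⟩ := (f3 z).1 hz
    exact (h1 hy).1.2 z hz) fun p hp _ => f4 _ fun y hy => (h1 hy).2 p hp
  refine this.not_ge (h2 ▸ (card_le_degree_of_subset_roots (p := f.map (algebraMap ℤ ℂ))
    fun y hy => ?_).trans natDegree_map_le)
  rw [mem_roots (f1.map _).ne_zero, IsRoot, eval_map_algebraMap]
  exact (f3 y).2 ⟨y, hy, rfl⟩

theorem denom {k : Type} [Field k] [CharZero k] {Y : Set k} (h : Y.Finite)
    (hY : ∀ y ∈ Y, IsIntegral ℤ y) :
    ∃ N : ℕ, N ≠ 0 ∧ ∀ y ∈ Y, ∀ z ∈ Y, IsIntegral ℤ (N / (y - z)) := by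
  have : ∀ T : Set k, T.Finite → (∀ x ∈ T, IsAlgebraic ℤ x) →
      ∃ N : ℕ, N ≠ 0 ∧ ∀ x ∈ T, IsIntegral ℤ (N * x) := fun T hT => by
    induction T, hT using Set.Finite.induction_on with
    | empty => exact fun _ => ⟨1, one_ne_zero, by simp⟩
    | @insert x T _ _ ih =>
      intro h
      obtain ⟨N, h1, h2⟩ := ih fun y hy => h y (Set.mem_insert_of_mem _ hy)
      obtain ⟨c, h3, h4⟩ := (h x (Set.mem_insert _ _)).exists_integral_multiple
      refine ⟨c.natAbs ^ 2 * N, by positivity, Set.forall_mem_insert.2 ⟨?_, fun y hy => ?_⟩⟩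
      · convert (h4.smul c).smul (N : ℤ) using 1
        simp only [zsmul_eq_mul, Nat.cast_mul, Nat.cast_pow, Nat.cast_natAbs, Int.cast_natCast,
          ← Int.cast_pow, sq_abs]
        push_cast
        ring
      · rw [Nat.cast_mul, mul_assoc]
        exact (isIntegral_natCast _).mul (h2 y hy)
  obtain ⟨N, h1, h2⟩ := this _ (h.image2 (fun y z => (y - z)⁻¹) h)
    (Set.forall_mem_image2.2 fun y hy z hz => ((hY y hy).sub (hY z hz)).isAlgebraic.inv)
  exact ⟨N, h1, fun y hy z hz => div_eq_mul_inv (N : k) _ ▸ h2 _ (Set.mem_image2_of_mem hy hz)⟩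

theorem emb_conj {K : IntermediateField ℚ ℂ} (φ : K →ₐ[ℚ] ℂ) (x : K) : IsConjRoot ℚ (x : ℂ) (φ x) :=
  (minpoly_eq x).symm.trans (minpoly.algHom_eq φ φ.injective x).symm

theorem adjTR {T : Set ℂ} (h1 : ∀ x ∈ T, IsIntegral ℤ x)
    (h2 : ∀ x ∈ T, ∀ z, IsConjRoot ℚ x z → z ∈ T ∧ z.im = 0) {x : ℂ} (hx : x ∈ adjoin ℚ T) :
    IsAlgebraic ℚ x ∧ ∀ z, IsConjRoot ℚ x z → z ∈ adjoin ℚ T ∧ z.im = 0 := by
  have := isAlgebraic_adjoin (K := ℚ) fun x hx => (h1 x hx).tower_top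
  refine ⟨isAlgebraic_iff.1 (this.isAlgebraic ⟨x, hx⟩), fun z hz => ?_⟩
  obtain ⟨φ, rfl⟩ := exists_algHom_adjoin_of_splits_of_aeval (K := ℂ)
    (fun x hx => ⟨(h1 x hx).tower_top, IsAlgClosed.splits _⟩) hx hz.aeval_eq_zero
  clear hz
  induction hx using adjoin_induction with
  | mem y hy =>
    obtain ⟨a, b⟩ := h2 y hy _ (emb_conj φ ⟨y, subset_adjoin _ _ hy⟩)
    exact ⟨subset_adjoin _ _ a, b⟩
  | algebraMap c =>
    rw [show φ ⟨_, _⟩ = algebraMap ℚ ℂ c from φ.commutes c]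
    exact ⟨_root_.algebraMap_mem _ c, by simp⟩
  | add y z hy hz a b =>
    rw [show φ ⟨y + z, _⟩ = _ from map_add φ ⟨y, hy⟩ ⟨z, hz⟩]
    exact ⟨add_mem a.1 b.1, by simp [a.2, b.2]⟩
  | inv y hy a =>
    rw [show φ ⟨y⁻¹, _⟩ = _ from map_inv₀ φ ⟨y, hy⟩]
    exact ⟨inv_mem a.1, by simp [a.2]⟩
  | mul y z hy hz a b =>
    rw [show φ ⟨y * z, _⟩ = _ from map_mul φ ⟨y, hy⟩ ⟨z, hz⟩]
    exact ⟨mul_mem a.1 b.1, by simp [a.2, b.2]⟩

theorem finL (K : IntermediateField ℚ ℂ) [NumberField K] (s : ℝ) :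
    {y | y ∈ K ∧ In s y}.Finite := by
  refine ((Embeddings.finite_of_norm_le K ℂ s).image Subtype.val).subset fun y hy =>
    ⟨⟨y, hy.1⟩, ⟨(isIntegral_algHom_iff (K.val.restrictScalars ℤ) Subtype.val_injective).1 hy.2.1,
      fun φ => ?_⟩, rfl⟩
  obtain ⟨a, b⟩ := hy.2.2 _ (emb_conj φ.toRatAlgHom ⟨y, hy.1⟩)
  exact (Complex.abs_re_eq_norm.2 a).ge.trans ((abs_of_nonneg b.1).trans_le b.2)

theorem split_primes (L : Type) [Field L] [NumberField L] (f : ℤ[X]) (hf : f.Monic)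
    (h1 : (f.map (algebraMap ℤ L)).Separable) (h2 : (f.map (algebraMap ℤ L)).Splits) :
    ∃ N : ℕ, ∀ (p : ℕ) [Fact p.Prime], N < p → Nonempty (𝓞 L →+* ZMod p) →
      (f.map (Int.castRingHom ℚ_[p])).Splits := by
  classical
  have h3 : ∀ y ∈ (f.map (algebraMap ℤ L)).roots.toFinset, aeval y f = 0 := fun y hy => by
    rw [← eval_map_algebraMap]
    exact isRoot_of_mem_roots (Multiset.mem_toFinset.1 hy)
  obtain ⟨N, N0, hN⟩ := denom (finite_toSet (f.map (algebraMap ℤ L)).roots.toFinset)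
    fun y hy => ⟨f, hf, h3 y hy⟩
  refine ⟨N, fun p _ hp ⟨ψ⟩ => splits_of_hom f hf ψ ((f.map (algebraMap ℤ L)).roots.toFinset.preimage
    (algebraMap (𝓞 L) L) RingOfIntegers.coe_injective.injOn) (fun y hy => ?_) ?_
    fun y hy z hz h => ?_⟩
  · exact RingOfIntegers.ext ((aeval_algebraMap_apply L y f).symm.trans (h3 _ (mem_preimage.1 hy)))
  · rw [card_preimage, filter_true_of_mem fun y hy => ⟨⟨y, f, hf, h3 y hy⟩, rfl⟩,
      Multiset.toFinset_card_of_nodup (nodup_roots h1), ← h2.natDegree_eq_card_roots,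
      hf.natDegree_map]
  · by_contra hne
    have e : (N : 𝓞 L) = ⟨_, hN _ (mem_preimage.1 hy) _ (mem_preimage.1 hz)⟩ * (y - z) :=
      RingOfIntegers.ext (by
        simp only [map_natCast, map_mul, map_sub]
        exact (div_mul_cancel₀ _ (sub_ne_zero.2 (RingOfIntegers.coe_injective.ne hne))).symm)
    have := congrArg ψ e
    rw [map_natCast, map_mul, map_sub, h, sub_self, mul_zero, ZMod.natCast_eq_zero_iff] at this
    exact (Nat.le_of_dvd (Nat.pos_of_ne_zero N0) this).not_gt hp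

end Pool.Agent.Lib.JR28
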