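import Pool.Agent.Lib.JR28.Step

/-! The tower and the classification. -/

set_option autoImplicit false

open Polynomial Finset Filter NumberField IntermediateField Topology

namespace Pool.Agent.Lib.JR28

open Pool.Agent.Lib.MP_be0b77_nt

theorem tower (a b : ℕ → ℝ) (h : ∀ i, Stp (a i) (b i)) : ∃ K : Subfield ℂ,
    (∀ x ∈ K, IsAlgebraic ℚ x ∧ ∀ z, IsConjRoot ℚ x z → z ∈ K ∧ z.im = 0) ∧
    (∀ s, (∀ᶠ i in atTop, s ≤ a i) → {α | α ∈ K ∧ In s α}.Finite) ∧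
    ∀ s, (∀ᶠ i in atTop, b i ≤ s) → {α | α ∈ K ∧ In s α}.Infinite := by
  choose F f1 f2 f3 α f4 f5 using h
  obtain ⟨g, e0, e⟩ : ∃ g : ℕ → {g : ℤ[X] // g.Monic}, (g 0).1 = 1 ∧
      ∀ i, (g (i + 1)).1 = (g i).1 * F i (g i).1 (g i).2 :=
    ⟨fun n => n.rec ⟨1, monic_one⟩ fun i g => ⟨g.1 * F i g.1 g.2, g.2.mul (f1 i g.1 g.2)⟩, rfl,
      fun _ => rfl⟩
  have m : Monotone fun i => Lg (g i).1 := monotone_nat_of_le_succ fun i =>
    adjoin.mono _ _ _ (by rw [e, Rt_mul]; exact Set.subset_union_left)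
  have k : ∀ x, x ∈ (⨆ i, Lg (g i).1).toSubfield ↔ ∃ i, x ∈ Lg (g i).1 := fun x => by
    rw [mem_toSubfield, ← SetLike.mem_coe, coe_iSup_of_directed m.directed_le, Set.mem_iUnion]
    rfl
  have r : ∀ i, ∀ z ∈ Rt (g i).1, z.im = 0 := fun i => by
    induction i with
    | zero => simp [e0, Rt]
    | succ i ih =>
      rw [e, Rt_mul]
      exact fun z hz => hz.elim (ih z) fun hz => (f2 _ _ _ z hz).1
  refine ⟨(⨆ i, Lg (g i).1).toSubfield, fun x hx => ?_, fun s hs => ?_, fun s hs => ?_⟩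
  · obtain ⟨i, hi⟩ := (k x).1 hx
    obtain ⟨h1, h2⟩ := adjTR (fun x hx => ⟨_, (g i).2, hx⟩)
      (fun x hx z hz => ⟨Rt_conj hx hz, r i z (Rt_conj hx hz)⟩) hi
    exact ⟨h1, fun z hz => ⟨(k z).2 ⟨i, (h2 z hz).1⟩, (h2 z hz).2⟩⟩
  · obtain ⟨n, hn⟩ := eventually_atTop.1 hs
    have := Lg_nf (g n).2
    refine (finL (Lg (g n).1) s).subset fun y hy => ⟨?_, hy.2⟩
    obtain ⟨i, hi⟩ := (k y).1 hy.1
    have h1 := m (i.le_add_left n) hi
    clear hi
    induction i with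
    | zero => exact h1
    | succ i ih => exact ih (f3 _ _ _ y (by rw [← e]; exact h1) (hy.2.mono (hn _ (n.le_add_right i))))
  · obtain ⟨n, hn⟩ := eventually_atTop.1 hs
    have h1 : ∀ i, α i (g i).1 (g i).2 ∈ Lg (g (i + 1)).1 := fun i =>
      subset_adjoin _ _ (by rw [e, Rt_mul]; exact Or.inr (f4 _ _ _))
    refine Set.infinite_of_injective_forall_mem
      (f := fun i => α (n + i) (g (n + i)).1 (g (n + i)).2)
      (Function.Injective.of_lt_imp_ne fun i j hij e => f5 (n + j) _ (g (n + j)).2 ?_) fun i =>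
      ⟨(k _).2 ⟨_, h1 _⟩, In.mono ⟨⟨_, f1 _ _ _, f4 _ _ _⟩, fun z hz =>
        f2 _ _ _ z (Rt_conj (f4 _ _ _) hz)⟩ (hn _ (n.le_add_right i))⟩
    rw [← e]
    exact m (show n + i + 1 ≤ n + j by omega) (h1 (n + i))

theorem fin_lt {s : ℝ} (h0 : 0 < s) (h : s < 4) : {α | In s α}.Finite := by
  simpa [Bs] using finB ∅ (by simp) h0 (by simpa [Wt] using h)

theorem inf_four : {α | In 4 α}.Infinite := by
  have h1 : ∀ n : ℕ, Real.pi / (2 * (n + 1 : ℕ)) ∈ Set.Icc 0 Real.pi := fun n =>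
    ⟨by positivity, div_le_self Real.pi_pos.le (by push_cast; linarith [n.cast_nonneg (α := ℝ)])⟩
  refine Set.infinite_of_injective_forall_mem
    (f := fun n : ℕ => ((2 + 2 * Real.cos (Real.pi / (2 * (n + 1 : ℕ))) : ℝ) : ℂ))
    (fun i j h => ?_) fun n => ?_
  · have h2 := Real.injOn_cos (h1 i) (h1 j) (by linarith [Complex.ofReal_injective h])
    rw [div_eq_div_iff (by positivity) (by positivity), mul_right_inj' Real.pi_ne_zero] at h2
    have : j + 1 = i + 1 := by exact_mod_cast mul_left_cancel₀ two_ne_zero h2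
    omega
  · have h2 : ((2 + 2 * Real.cos (Real.pi / (2 * (n + 1 : ℕ))) : ℝ) : ℂ) ∈ Rt (D (n + 1)) := by
      have := D_eval (n + 1) (Real.pi / (2 * (n + 1 : ℕ)))
      rw [show ((n + 1 : ℕ) : ℝ) * (Real.pi / (2 * (n + 1 : ℕ))) = Real.pi / 2 by field_simp,
        Real.cos_pi_div_two, mul_zero] at this
      exact (aeval_algebraMap_apply ℂ (_ : ℝ) _).trans
        (by rw [← eval_map_algebraMap]; exact (congrArg _ this).trans (map_zero _))
    refine ⟨⟨_, (D_monic n).1, h2⟩, fun z hz => ?_⟩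
    have := roots_B one_pos n 0 (by simp) z (by
      simp only [Pi.zero_apply, map_zero, zero_mul, sum_const_zero, add_zero, B, scaleRoots_one]
      exact (aeval_map_algebraMap ℝ z _).trans (Rt_conj h2 hz))
    rwa [mul_one] at this

theorem realise (A : Set ℝ) (h : A = ∅ ∨ ∃ t : ℝ, 4 ≤ t ∧ (A = Set.Ioi t ∨ A = Set.Ici t)) :
    ∃ K : Subfield ℂ, (∀ x ∈ K, IsAlgebraic ℚ x ∧ ∀ z, IsConjRoot ℚ x z → z ∈ K ∧ z.im = 0) ∧
      {s : ℝ | 0 < s ∧ {α | α ∈ K ∧ In s α}.Infinite} = A := by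
  have l : Tendsto (fun i : ℕ => 1 / ((i : ℝ) + 1)) atTop (𝓝 0) :=
    tendsto_one_div_add_atTop_nhds_zero_nat
  have l0 : ∀ i : ℕ, 0 < 1 / ((i : ℝ) + 1) := fun i => by positivity
  rcases h with rfl | ⟨t, ht, rfl | rfl⟩
  · have := Lg_nf monic_one
    exact ⟨(Lg 1).toSubfield, fun x hx => adjTR (by simp [Rt]) (by simp [Rt]) hx,
      Set.eq_empty_of_forall_notMem fun s hs => hs.2 (finL (Lg 1) s)⟩
  · obtain ⟨K, h1, h2, h3⟩ := tower (fun _ => t) (fun i => t + 1 / ((i : ℝ) + 1)) fun i =>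
      step (by linarith) (by linarith [l0 i]) (by linarith [l0 i])
    refine ⟨K, h1, Set.ext fun s => ⟨fun hs => not_le.1 fun h =>
      hs.2 (h2 s (.of_forall fun _ => h)), fun hs => ⟨by linarith [Set.mem_Ioi.1 hs], h3 s ?_⟩⟩⟩
    exact (l.eventually_le_const (sub_pos.2 hs)).mono fun i hi => by linarith
  rcases ht.eq_or_lt with rfl | ht
  · refine ⟨(adjoin ℚ {α | In 4 α}).toSubfield, fun x hx => adjTR (T := {α | In 4 α})
      (fun _ h => h.1) (fun x h z hz => ⟨⟨int_conj h.1 hz, fun w hw => h.2 w (hz.trans hw)⟩, (h.2 z hz).1⟩) hx,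
      Set.ext fun s => ⟨fun hs => not_lt.1 fun h => hs.2 ((fin_lt hs.1 h).subset fun _ => And.right),
        fun hs => ⟨four_pos.trans_le hs, inf_four.mono fun x hx =>
          ⟨subset_adjoin _ _ hx, hx.mono hs⟩⟩⟩⟩
  · obtain ⟨K, h1, h2, h3⟩ := tower (fun i => t - 1 / ((i : ℝ) + 1)) (fun _ => t) fun i =>
      step (by linarith [div_le_self zero_le_one (le_add_of_nonneg_left i.cast_nonneg :
        (1 : ℝ) ≤ i + 1)]) (by linarith [l0 i]) ht
    refine ⟨K, h1, Set.ext fun s => ⟨fun hs => not_lt.1 fun h : s < t => hs.2 (h2 s ?_),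
      fun hs => ⟨by linarith [Set.mem_Ici.1 hs], h3 s (.of_forall fun _ => hs)⟩⟩⟩
    exact (l.eventually_le_const (sub_pos.2 h)).mono fun i hi => by linarith

theorem shape (K : Subfield ℂ) (A : Set ℝ)
    (h : {s : ℝ | 0 < s ∧ {α | α ∈ K ∧ In s α}.Infinite} = A) :
    A = ∅ ∨ ∃ t : ℝ, 4 ≤ t ∧ (A = Set.Ioi t ∨ A = Set.Ici t) := by
  refine A.eq_empty_or_nonempty.imp_right fun hA => ?_
  have h1 : ∀ s ∈ A, 4 ≤ s := fun s hs => not_lt.1 fun h4 => by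
    subst h
    exact hs.2 ((fin_lt hs.1 h4).subset fun _ => And.right)
  have h2 : ∀ s ∈ A, ∀ t, s ≤ t → t ∈ A := fun s hs t hst => by
    subst h
    exact ⟨hs.1.trans_le hst, hs.2.mono fun x hx => ⟨hx.1, hx.2.mono hst⟩⟩
  have h3 : ∀ s ∈ A, sInf A ≤ s := fun s => csInf_le ⟨4, h1⟩
  refine ⟨sInf A, le_csInf hA h1, (em (sInf A ∈ A)).symm.imp (fun h4 => Set.ext fun s =>
    ⟨fun hs => (h3 s hs).lt_of_ne fun e => h4 (e ▸ hs), fun hs => ?_⟩)
    fun h4 => Set.ext fun s => ⟨h3 s, h2 _ h4 s⟩⟩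
  obtain ⟨u, hu, h5⟩ := exists_lt_of_csInf_lt hA hs
  exact h2 u hu s h5.le

end Pool.Agent.Lib.JR28
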