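import Mathlib

/-! Perturbation of split polynomials over the `p`-adic numbers. -/

set_option autoImplicit false

open Polynomial Finset

namespace Pool.Agent.Lib.JR28

variable {p : ℕ} [Fact p.Prime]

theorem nadd {x y : ℚ_[p]} {c : ℝ} (hx : ‖x‖ ≤ c) (hy : ‖y‖ ≤ c) : ‖x + y‖ ≤ c :=
  (IsUltrametricDist.norm_add_le_max x y).trans (max_le hx hy)

theorem nsub {x y : ℚ_[p]} {c : ℝ} (hx : ‖x‖ ≤ c) (hy : ‖y‖ ≤ c) : ‖x - y‖ ≤ c := by
  rw [sub_eq_add_neg]
  exact nadd hx (by rwa [norm_neg])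

theorem neq {x y : ℚ_[p]} (h : ‖x‖ < ‖y‖) : ‖x + y‖ = ‖y‖ := by
  rw [IsUltrametricDist.norm_add_eq_max_of_norm_ne_norm h.ne, max_eq_right h.le]

/-- A small perturbation of a split polynomial is split. -/
theorem perturb (s : Finset ℕ) (ρ : ℕ → ℚ_[p]) (R : ℚ_[p][X]) {γ τ : ℝ} (hτ : 0 ≤ τ)
    (hτγ : τ < γ) (hg : ∀ i ∈ s, ∀ k ∈ s, i ≠ k → γ ≤ ‖ρ i - ρ k‖) (hd : R.degree < s.card)
    (hR : ∀ i ∈ s, ‖R.eval (ρ i)‖ ≤ τ * ∏ k ∈ s.erase i, ‖ρ i - ρ k‖) :
    ∃ ρ' : ℕ → ℚ_[p], (∀ i ∈ s, ‖ρ' i - ρ i‖ ≤ τ) ∧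
      ∏ i ∈ s, (X - C (ρ i)) + R = ∏ i ∈ s, (X - C (ρ' i)) := by
  have hγ : 0 < γ := hτ.trans_lt hτγ
  have inj : Set.InjOn ρ s := fun i hi k hk h => by
    by_contra hne
    have := hg i hi k hk hne
    rw [h, sub_self, norm_zero] at this
    linarith
  set t : ℕ → ℚ_[p] := fun k => Lagrange.nodalWeight s ρ k * R.eval (ρ k) with ht
  have ht1 : ∀ k ∈ s, ‖t k‖ ≤ τ := fun k hk => by
    have h0 : 0 < ∏ j ∈ s.erase k, ‖ρ k - ρ j‖ := prod_pos fun j hj =>
      hγ.trans_le (hg k hk j (mem_of_mem_erase hj) (ne_of_mem_erase hj).symm)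
    simp only [ht, Lagrange.nodalWeight, norm_mul, norm_prod, norm_inv, prod_inv_distrib]
    rw [inv_mul_le_iff₀ h0, mul_comm]
    exact hR k hk
  have key : ∀ i ∈ s, ∃ y : ℚ_[p], ‖y‖ ≤ τ ∧
      (Lagrange.nodal s ρ + R).eval (ρ i + y) = 0 := fun i hi => by
    have hn : ∀ k ∈ s.erase i, ∀ y : ℚ_[p], ‖y‖ ≤ τ →
        ‖y + (ρ i - ρ k)‖ = ‖ρ i - ρ k‖ ∧ γ ≤ ‖ρ i - ρ k‖ := fun k hk y hy => by
      have := hg i hi k (mem_of_mem_erase hk) (ne_of_mem_erase hk).symm
      exact ⟨neq (by linarith), this⟩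
    set T : ℚ_[p] → ℚ_[p] := fun y => -t i - ∑ k ∈ s.erase i, t k * (y / (y + (ρ i - ρ k)))
      with hT
    have h1 : Set.MapsTo T (Metric.closedBall 0 τ) (Metric.closedBall 0 τ) := fun y hy => by
      rw [mem_closedBall_zero_iff] at hy ⊢
      refine nsub (by rw [norm_neg]; exact ht1 i hi)
        (IsUltrametricDist.norm_sum_le_of_forall_le_of_nonneg hτ fun k hk => ?_)
      obtain ⟨a, b⟩ := hn k hk y hy
      rw [norm_mul, norm_div, a]
      exact (mul_le_of_le_one_right (norm_nonneg _)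
        ((div_le_one (by linarith)).2 (by linarith))).trans (ht1 k (mem_of_mem_erase hk))
    have h2 : ContractingWith ⟨τ / γ, div_nonneg hτ hγ.le⟩ (h1.restrict T _ _) := by
      refine ⟨(div_lt_one hγ).2 hτγ, LipschitzWith.of_dist_le_mul fun y y' => ?_⟩
      have hy := mem_closedBall_zero_iff.1 y.2
      have hy' := mem_closedBall_zero_iff.1 y'.2
      change dist (T y) (T y') ≤ τ / γ * dist (y : ℚ_[p]) y'
      rw [dist_comm, dist_eq_norm, dist_eq_norm]
      simp only [hT, sub_sub_sub_cancel_left, ← sum_sub_distrib]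
      refine IsUltrametricDist.norm_sum_le_of_forall_le_of_nonneg (by positivity) fun k hk => ?_
      obtain ⟨a, b⟩ := hn k hk y hy
      obtain ⟨a', -⟩ := hn k hk y' hy'
      have c : 0 < ‖ρ i - ρ k‖ := by linarith
      have n1 : (y : ℚ_[p]) + (ρ i - ρ k) ≠ 0 := norm_pos_iff.1 (a ▸ c)
      have n2 : (y' : ℚ_[p]) + (ρ i - ρ k) ≠ 0 := norm_pos_iff.1 (a' ▸ c)
      have e : t k * (y / (y + (ρ i - ρ k))) - t k * (y' / (y' + (ρ i - ρ k))) =
          t k * (ρ i - ρ k) / ((y + (ρ i - ρ k)) * (y' + (ρ i - ρ k))) * (y - y') := by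
        field_simp
        ring
      rw [e, norm_mul, norm_div, norm_mul (t k), norm_mul (_ + _), a, a',
        mul_div_mul_right _ _ c.ne']
      exact mul_le_mul_of_nonneg_right
        (div_le_div₀ hτ (ht1 k (mem_of_mem_erase hk)) hγ b) (norm_nonneg _)
    obtain ⟨y, hy, hf, -⟩ := h2.exists_fixedPoint' Metric.isClosed_closedBall.isComplete h1
      (Metric.mem_closedBall_self hτ) (edist_ne_top _ _)
    rw [mem_closedBall_zero_iff] at hy
    refine ⟨y, hy, ?_⟩
    have hf' : -t i - ∑ k ∈ s.erase i, t k * (y / (y + (ρ i - ρ k))) = y := hf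
    rcases eq_or_ne y 0 with rfl | h0
    · simp only [zero_div, mul_zero, sum_const_zero, sub_zero, neg_eq_zero, ht] at hf'
      rw [add_zero, eval_add, Lagrange.eval_nodal_at_node hi, zero_add]
      exact (mul_eq_zero.1 hf').resolve_left (Lagrange.nodalWeight_ne_zero inj hi)
    · have hx : ∀ k ∈ s, ρ i + y ≠ ρ k := fun k hk h => by
        rcases eq_or_ne k i with rfl | hki
        · exact h0 (by linear_combination h)
        · obtain ⟨a, b⟩ := hn k (mem_erase.2 ⟨hki, hk⟩) y hy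
          rw [show y + (ρ i - ρ k) = 0 by linear_combination h, norm_zero] at a
          linarith
      rw [eval_add, Lagrange.eq_interpolate inj hd, Lagrange.eval_interpolate_not_at_node _ hx,
        ← mul_one_add, ← add_sum_erase _ _ hi]
      refine mul_eq_zero_of_right _ (mul_left_cancel₀ h0 ?_)
      rw [mul_add, mul_add, mul_sum, mul_one, mul_zero]
      have e1 : y * (Lagrange.nodalWeight s ρ i * (ρ i + y - ρ i)⁻¹ * R.eval (ρ i)) = t i := by
        rw [add_sub_cancel_left, ht]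
        field_simp
      have e2 : ∑ k ∈ s.erase i,
          y * (Lagrange.nodalWeight s ρ k * (ρ i + y - ρ k)⁻¹ * R.eval (ρ k)) =
          ∑ k ∈ s.erase i, t k * (y / (y + (ρ i - ρ k))) := sum_congr rfl fun k _ => by
        rw [ht, show ρ i + y - ρ k = y + (ρ i - ρ k) by ring]
        ring
      rw [e1, e2]
      linear_combination -hf'
  choose! y hy1 hy2 using key
  refine ⟨fun i => ρ i + y i, fun i hi => by rw [add_sub_cancel_left]; exact hy1 i hi, ?_⟩
  have inj' : Set.InjOn (fun i => ρ i + y i) s := fun i hi k hk h => by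
    by_contra hne
    have a := hg i hi k hk hne
    have b := nsub (hy1 k hk) (hy1 i hi)
    rw [show y k - y i = ρ i - ρ k by simp only at h; linear_combination -h] at b
    linarith
  rw [← sub_eq_zero, ← Lagrange.nodal_eq, ← Lagrange.nodal_eq]
  refine eq_zero_of_degree_lt_of_eval_index_eq_zero s inj' ?_ fun i hi => ?_
  · rw [add_sub_right_comm]
    refine (degree_add_le _ _).trans_lt (max_lt ?_ hd)
    refine (degree_sub_lt_left ?_ Lagrange.nodal_ne_zero ?_).trans_eq Lagrange.degree_nodal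
    · rw [Lagrange.degree_nodal, Lagrange.degree_nodal]
    · rw [Lagrange.nodal_monic, Lagrange.nodal_monic]
  · rw [eval_sub, hy2 i hi, Lagrange.eval_nodal_at_node (v := fun i => ρ i + y i) hi, sub_zero]

/-- The norm of a factorial. -/
noncomputable def ph (p : ℕ) [Fact p.Prime] (k : ℕ) : ℝ := ‖((k.factorial : ℕ) : ℚ_[p])‖

theorem ph_pos (k : ℕ) : 0 < ph p k := norm_pos_iff.2 (by exact_mod_cast k.factorial_ne_zero)

theorem norm_nat {z : ℕ} (hz : z ≠ 0) : ‖(z : ℚ_[p])‖ = ((p : ℝ) ^ z.factorization p)⁻¹ := by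
  rw [Padic.norm_eq_zpow_neg_valuation (by exact_mod_cast hz), Padic.valuation_natCast,
    Nat.factorization_def _ Fact.out, zpow_neg, zpow_natCast]

theorem norm_nat_le (z : ℕ) : ‖(z : ℚ_[p])‖ ≤ 1 := by
  exact_mod_cast Padic.norm_int_le_one (p := p) z

theorem le_norm_nat {z : ℕ} {N : ℝ} (hz : z ≠ 0) (h : z ≤ N) : N⁻¹ ≤ ‖(z : ℚ_[p])‖ := by
  rw [norm_nat hz]
  have hp : (0 : ℝ) < p := by exact_mod_cast (Fact.out : p.Prime).pos
  refine inv_anti₀ (by positivity) (le_trans ?_ h)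
  exact_mod_cast Nat.le_of_dvd (Nat.pos_of_ne_zero hz) (Nat.ordProj_dvd z p)

theorem le_norm_sub {i k : ℕ} {N : ℝ} (h : i ≠ k) (hi : i ≤ N) (hk : k ≤ N) :
    N⁻¹ ≤ ‖(i : ℚ_[p]) - k‖ := by
  rcases lt_or_gt_of_ne h with h | h
  · rw [norm_sub_rev, ← Nat.cast_sub h.le]
    exact le_norm_nat (by omega) (le_trans (by exact_mod_cast Nat.sub_le _ _) hk)
  · rw [← Nat.cast_sub h.le]
    exact le_norm_nat (by omega) (le_trans (by exact_mod_cast Nat.sub_le _ _) hi)

theorem le_norm_choose {a j : ℕ} (ha : 0 < a) (hj : j ≤ a) :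
    (a : ℝ)⁻¹ ≤ ‖((a.choose j : ℕ) : ℚ_[p])‖ := by
  rw [norm_nat (Nat.choose_pos hj).ne']
  have hp : (0 : ℝ) < p := by exact_mod_cast (Fact.out : p.Prime).pos
  refine inv_anti₀ (by positivity) ?_
  exact_mod_cast Nat.pow_factorization_choose_le ha

theorem prod_sub_nat (n k : ℕ) :
    ∏ i ∈ range k, ((n : ℚ_[p]) - i) = (n.descFactorial k : ℕ) := by
  induction k with
  | zero => simp
  | succ k ih =>
    rw [prod_range_succ, ih, Nat.descFactorial_succ]
    rcases le_or_gt k n with h | h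
    · rw [Nat.cast_mul, Nat.cast_sub h, mul_comm]
    · rw [Nat.descFactorial_of_lt h]
      simp

theorem norm_ff {x : ℚ_[p]} (hx : ‖x‖ ≤ 1) (k : ℕ) : ‖∏ i ∈ range k, (x - i)‖ ≤ ph p k := by
  have h : ∀ z : ℤ_[p], ‖∏ i ∈ range k, ((z : ℚ_[p]) - i)‖ ≤ ph p k := fun z => by
    refine PadicInt.denseRange_natCast.induction_on z
      (isClosed_le (by fun_prop) continuous_const) fun n => ?_
    rw [PadicInt.coe_natCast, prod_sub_nat, Nat.descFactorial_eq_factorial_mul_choose,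
      Nat.cast_mul, norm_mul]
    exact mul_le_of_le_one_right (norm_nonneg _) (norm_nat_le _)
  exact h ⟨x, hx⟩

theorem ph_add (i j : ℕ) : ph p (i + j) = ‖(((i + j).choose j : ℕ) : ℚ_[p])‖ * ph p i * ph p j := by
  rw [ph, ← Nat.add_choose_mul_factorial_mul_factorial, Nat.cast_mul, Nat.cast_mul, norm_mul,
    norm_mul, ph, ph]

theorem ph_add_le (i j : ℕ) : ph p (i + j) ≤ ph p i * ph p j := by
  rw [ph_add, mul_assoc]
  exact mul_le_of_le_one_left (mul_pos (ph_pos _) (ph_pos _)).le (norm_nat_le _)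

theorem ph_succ (i : ℕ) : ph p (i + 1) = ‖((i + 1 : ℕ) : ℚ_[p])‖ * ph p i := by
  rw [ph, Nat.factorial_succ, Nat.cast_mul, norm_mul, ph]

theorem prod_erase_eq (i j : ℕ) :
    ∏ k ∈ (range (i + 1 + j)).erase i, ‖(i : ℚ_[p]) - k‖ = ph p i * ph p j := by
  induction j with
  | zero =>
    rw [add_zero, range_add_one, erase_insert notMem_range_self, ← norm_prod, prod_sub_nat,
      Nat.descFactorial_self]
    simp [ph]
  | succ j ih =>
    rw [← add_assoc, range_add_one, erase_insert_of_ne (by omega),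
      prod_insert (fun h => notMem_range_self (mem_of_mem_erase h)), ih, ph_succ, norm_sub_rev]
    push_cast
    rw [show (i : ℚ_[p]) + 1 + j - i = j + 1 by ring]
    ring

theorem prod_erase {i L : ℕ} (h : i < L) :
    ph p L ≤ ∏ k ∈ (range L).erase i, ‖(i : ℚ_[p]) - k‖ ∧
      ∏ k ∈ (range L).erase i, ‖(i : ℚ_[p]) - k‖ ≤ (L : ℝ) ^ 2 * ph p L := by
  obtain ⟨j, rfl⟩ : ∃ j, L = i + 1 + j := ⟨L - (i + 1), by omega⟩
  have a := mul_pos (ph_pos (p := p) i) (ph_pos (p := p) j)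
  have L0 : (0 : ℝ) < (i + 1 + j : ℕ) := by positivity
  have b := le_norm_choose (p := p) (a := i + 1 + j) (j := j) (by omega) (by omega)
  have c := le_norm_nat (p := p) (z := i + 1) (N := (i + 1 + j : ℕ)) (by omega)
    (by exact_mod_cast (by omega))
  rw [prod_erase_eq, ph_add, ph_succ]
  rw [inv_le_iff_one_le_mul₀ L0] at b c
  constructor
  · have := mul_le_one₀ (norm_nat_le (p := p) ((i + 1 + j).choose j)) (norm_nonneg _)
      (norm_nat_le (p := p) (i + 1))
    nlinarith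
  · have := one_le_mul_of_one_le_of_one_le b c
    nlinarith

theorem prod_erase_ite (s : Finset ℕ) (i : ℕ) (f : ℕ → ℝ) :
    ∏ k ∈ s.erase i, f k = ∏ k ∈ s, if k = i then 1 else f k := by
  rw [← Finset.prod_erase s (f := fun k => if k = i then 1 else f k) (a := i) (if_pos rfl)]
  exact prod_congr rfl fun k hk => (if_neg (ne_of_mem_erase hk)).symm

theorem near {x : ℚ_[p]} {γ : ℝ} {n : ℕ} (h1 : γ ≤ 1)
    (h : ∀ k < n, γ ≤ ‖x - k‖) : γ * ph p n ≤ ∏ k ∈ range n, ‖x - k‖ := by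
  rcases Nat.eq_zero_or_pos n with rfl | hn
  · simpa [ph] using h1
  obtain ⟨i, hi, hm⟩ := exists_min_image (range n) (fun k : ℕ => ‖x - k‖) (nonempty_range_iff.2 hn.ne')
  rw [← mul_prod_erase _ _ hi]
  refine mul_le_mul (h i (mem_range.1 hi)) ((prod_erase (mem_range.1 hi)).1.trans
    (prod_le_prod (fun _ _ => norm_nonneg _) fun k hk => ?_)) (ph_pos _).le (norm_nonneg _)
  rw [show (i : ℚ_[p]) - k = (x - k) - (x - i) by ring]
  exact nsub le_rfl (hm k (mem_of_mem_erase hk))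

theorem deg_lt {a : ℕ → ℚ_[p]} {c : ℕ → ℚ_[p]} {L N : ℕ} (h : L ≤ N) :
    (∑ k ∈ range L, C (c k) * ∏ j ∈ range k, (X - C (a j))).degree < N := by
  refine (degree_sum_le _ _).trans_lt ((Finset.sup_lt_iff (WithBot.bot_lt_coe _)).2 fun k hk => ?_)
  rw [← smul_eq_C_mul, ← Lagrange.nodal_eq]
  refine (degree_smul_le _ _).trans_lt ?_
  rw [Lagrange.degree_nodal, card_range]
  exact_mod_cast (mem_range.1 hk).trans_le h

/-- The two-stage splitting criterion. -/
theorem split (n L : ℕ) (hL : 0 < L) (Δ : ℕ → ℚ_[p]) {β γ : ℝ} (hγ : 0 < γ)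
    (h1 : γ * L ^ 2 ≤ β) (h2 : γ ≤ ((n + L : ℕ) : ℝ)⁻¹)
    (hA : ∀ k < L, ‖Δ (n + k)‖ * ph p k ≤ (L : ℝ)⁻¹ / 2 * ph p L)
    (hB : ∀ i < n, β * ph p L ≤ ‖∏ j ∈ range L, ((i : ℚ_[p]) - (n + j)) +
      ∑ k ∈ range L, Δ (n + k) * ∏ j ∈ range k, ((i : ℚ_[p]) - (n + j))‖)
    (hC : ∀ k < n, ‖Δ k‖ * ph p k ≤ γ / 2 * (γ * ph p (n + L))) :
    (∏ i ∈ range (n + L), (X - C (i : ℚ_[p])) +
      ∑ k ∈ range (n + L), C (Δ k) * ∏ i ∈ range k, (X - C (i : ℚ_[p]))).Splits := by
  have L1 : (1 : ℝ) ≤ L := by exact_mod_cast hL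
  have L0 : 0 < (L : ℝ)⁻¹ := by positivity
  have gL : γ ≤ (L : ℝ)⁻¹ := h2.trans (inv_anti₀ (by positivity) (by exact_mod_cast Nat.le_add_left _ _))
  have iL : (L : ℝ)⁻¹ ≤ 1 := inv_le_one_of_one_le₀ L1
  have gap : ∀ i < L, ∀ k < L, i ≠ k → (L : ℝ)⁻¹ ≤ ‖(i : ℚ_[p]) - k‖ := fun i hi k hk h =>
    le_norm_sub h (by exact_mod_cast hi.le) (by exact_mod_cast hk.le)
  obtain ⟨α, a1, a2⟩ := perturb (range L) (fun j : ℕ => (n : ℚ_[p]) + (j : ℚ_[p]))
    (∑ k ∈ range L, C (Δ (n + k)) * ∏ j ∈ range k, (X - C ((n : ℚ_[p]) + j)))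
    (γ := (L : ℝ)⁻¹) (τ := (L : ℝ)⁻¹ / 2) (by positivity) (half_lt_self L0)
    (fun i hi k hk h => by
      rw [add_sub_add_left_eq_sub]
      exact gap i (mem_range.1 hi) k (mem_range.1 hk) h)
    (by rw [card_range]; exact deg_lt le_rfl) fun i hi => by
      simp only [eval_finsetSum, eval_mul, eval_C, eval_prod, eval_sub, eval_X,
        add_sub_add_left_eq_sub]
      refine IsUltrametricDist.norm_sum_le_of_forall_le_of_nonneg (by positivity) fun k hk => ?_
      rw [norm_mul]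
      exact ((mul_le_mul_of_nonneg_left (norm_ff (norm_nat_le i) k) (norm_nonneg _)).trans
        (hA k (mem_range.1 hk))).trans
        (mul_le_mul_of_nonneg_left (prod_erase (mem_range.1 hi)).1 (by positivity))
  have a3 : ∀ i < L, ∀ k < L, i ≠ k → ‖α i - α k‖ = ‖(i : ℚ_[p]) - k‖ := fun i hi k hk h => by
    rw [show α i - α k = ((α i - (n + i)) - (α k - (n + k))) + ((i : ℚ_[p]) - k) by ring]
    exact neq ((nsub (a1 i (mem_range.2 hi)) (a1 k (mem_range.2 hk))).trans_lt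
      ((half_lt_self L0).trans_le (gap i hi k hk h)))
  have a4 : ∀ i < L, ‖α i‖ ≤ 1 := fun i hi => by
    rw [show α i = (α i - (n + i)) + (n + i) by ring]
    exact nadd ((a1 i (mem_range.2 hi)).trans ((half_le_self L0.le).trans iL))
      (nadd (norm_nat_le n) (norm_nat_le i))
  have a5 : ∀ i < n, β * ph p L ≤ ∏ j ∈ range L, ‖(i : ℚ_[p]) - α j‖ := fun i hi => by
    have := congrArg (eval (i : ℚ_[p])) a2
    simp only [eval_add, eval_finsetSum, eval_mul, eval_C, eval_prod, eval_sub, eval_X] at this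
    rw [← norm_prod, ← this]
    exact hB i hi
  have a6 : ∀ i < n, ∀ j < L, γ ≤ ‖(i : ℚ_[p]) - α j‖ := fun i hi j hj => by
    by_contra hc
    rw [not_le] at hc
    have b := a5 i hi
    rw [← mul_prod_erase _ _ (mem_range.2 hj), prod_congr rfl (g := fun k : ℕ => ‖(j : ℚ_[p]) - k‖)
      fun k hk => by
        have c := mem_range.1 (mem_of_mem_erase hk)
        have d := (ne_of_mem_erase hk).symm
        rw [show (i : ℚ_[p]) - α k = (i - α j) + (α j - α k) by ring, ← a3 j hj k c d]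
        exact neq (by rw [a3 j hj k c d]; exact hc.trans_le (gL.trans (gap j hj k c d)))] at b
    have c := mul_le_mul_of_nonneg_left (prod_erase (p := p) hj).2 (norm_nonneg ((i : ℚ_[p]) - α j))
    have d := mul_lt_mul_of_pos_right hc (show 0 < (L : ℝ) ^ 2 * ph p L from
      mul_pos (by positivity) (ph_pos _))
    have e := mul_le_mul_of_nonneg_right h1 (ph_pos (p := p) L).le
    linarith
  set ρ : ℕ → ℚ_[p] := fun i => if i < n then i else α (i - n) with hρ
  have r1 : ∀ i < n, ρ i = i := fun i hi => if_pos hi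
  have r2 : ∀ j, ρ (n + j) = α j := fun j => by
    simp only [hρ, if_neg (show ¬n + j < n by omega), Nat.add_sub_cancel_left]
  have cs : ∀ i ∈ range (n + L), i < n ∨ ∃ j < L, i = n + j := fun i hi => by
    have := mem_range.1 hi
    rcases lt_or_ge i n with h | h
    · exact Or.inl h
    · exact Or.inr ⟨i - n, by omega, by omega⟩
  have pm := ph_add_le (p := p) n L
  have pn := ph_pos (p := p) n
  have pL := ph_pos (p := p) L
  obtain ⟨ρ', -, b2⟩ := perturb (range (n + L)) ρ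
    (∑ k ∈ range n, C (Δ k) * ∏ j ∈ range k, (X - C (j : ℚ_[p]))) (γ := γ) (τ := γ / 2)
    (by positivity) (half_lt_self hγ)
    (fun i hi k hk h => by
      rcases cs i hi with h3 | ⟨j, hj, rfl⟩ <;> rcases cs k hk with h4 | ⟨l, hl, rfl⟩
      · rw [r1 i h3, r1 k h4]
        exact h2.trans (le_norm_sub h (by exact_mod_cast (mem_range.1 hi).le)
          (by exact_mod_cast (mem_range.1 hk).le))
      · rw [r1 i h3, r2]
        exact a6 i h3 l hl
      · rw [r1 k h4, r2, norm_sub_rev]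
        exact a6 k h4 j hj
      · rw [r2, r2, a3 j hj l hl (by omega)]
        exact gL.trans (gap j hj l hl (by omega)))
    (by rw [card_range]; exact deg_lt (Nat.le_add_right _ _)) fun i hi => by
      have c1 : ‖ρ i‖ ≤ 1 := by
        rcases cs i hi with h3 | ⟨j, hj, rfl⟩
        · rw [r1 i h3]; exact norm_nat_le i
        · rw [r2]; exact a4 j hj
      refine le_trans (b := γ / 2 * (γ * ph p (n + L))) ?_
        (mul_le_mul_of_nonneg_left ?_ (by positivity))
      · simp only [eval_finsetSum, eval_mul, eval_C, eval_prod, eval_sub, eval_X]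
        refine IsUltrametricDist.norm_sum_le_of_forall_le_of_nonneg
          (by have := ph_pos (p := p) (n + L); positivity) fun k hk => ?_
        rw [norm_mul]
        exact (mul_le_mul_of_nonneg_left (norm_ff c1 k) (norm_nonneg _)).trans
          (hC k (mem_range.1 hk))
      refine (mul_le_mul_of_nonneg_left pm hγ.le).trans ?_
      rw [prod_erase_ite, prod_range_add]
      rcases cs i hi with h3 | ⟨j, hj, rfl⟩
      · rw [← prod_erase_ite, mul_left_comm]
        refine mul_le_mul ((prod_erase h3).1.trans_eq (prod_congr rfl fun k hk => ?_))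
          (le_trans ?_ ((a5 i h3).trans_eq (prod_congr rfl fun k _ => ?_))) (by positivity)
          (prod_nonneg fun _ _ => norm_nonneg _)
        · rw [r1 i h3, r1 k (mem_range.1 (mem_of_mem_erase hk))]
        · exact mul_le_mul_of_nonneg_right (le_trans (le_mul_of_one_le_right hγ.le
            (one_le_pow₀ L1)) h1) pL.le
        · rw [if_neg (by omega), r1 i h3, r2]
      · rw [← mul_assoc]
        refine mul_le_mul ((near (x := α j) (gL.trans iL) fun k hk => ?_).trans_eq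
          (prod_congr rfl fun k hk => ?_)) (((prod_erase hj).1.trans_eq (prod_erase_ite _ _ _)).trans_eq
          (prod_congr rfl fun k hk => ?_)) pL.le (prod_nonneg fun _ _ => by positivity)
        · rw [norm_sub_rev]
          exact a6 k hk j hj
        · rw [if_neg (by have := mem_range.1 hk; omega), r2, r1 k (mem_range.1 hk)]
        · rcases eq_or_ne k j with rfl | h
          · rw [if_pos rfl, if_pos rfl]
          · rw [if_neg h, if_neg (by omega), r2, r2, a3 j hj k (mem_range.1 hk) h.symm]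
  have e : ∏ i ∈ range (n + L), (X - C (i : ℚ_[p])) +
      ∑ k ∈ range (n + L), C (Δ k) * ∏ i ∈ range k, (X - C (i : ℚ_[p])) =
      ∏ i ∈ range (n + L), (X - C (ρ' i)) := by
    rw [← b2, prod_range_add (fun i => X - C (ρ i)), sum_range_add]
    simp only [r2]
    rw [← a2, prod_congr rfl (g := fun i : ℕ => X - C (i : ℚ_[p])) (s₂ := range n)
      fun i hi => by rw [r1 i (mem_range.1 hi)], mul_add, mul_sum]
    simp only [prod_range_add, Nat.cast_add, mul_left_comm]
    ring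
  rw [e]
  exact Splits.prod fun i _ => Splits.X_sub_C _

end Pool.Agent.Lib.JR28
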