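import Mathlib

/-! Choice of the numerical parameters. -/

set_option autoImplicit false

open Polynomial Finset Filter

namespace Pool.Agent.Lib.JR28

theorem m2 {x y a b : ℕ} (h : x ≤ 2 ^ a) (h' : y ≤ 2 ^ b) : x * y ≤ 2 ^ (a + b) :=
  pow_add 2 a b ▸ Nat.mul_le_mul h h'

theorem p2 {x a : ℕ} (h : x ≤ 2 ^ a) (n : ℕ) : x ^ n ≤ 2 ^ (a * n) :=
  pow_mul 2 a n ▸ Nat.pow_le_pow_left h n

theorem w2 {x a b : ℕ} (h : x ≤ 2 ^ a) (h' : a ≤ b) : x ≤ 2 ^ b :=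
  h.trans (Nat.pow_le_pow_right two_pos h')

theorem r2 {ρ : ℝ} (h0 : 0 ≤ ρ) (h1 : ρ ≤ 1) {x a b w j k : ℕ} (h : x ≤ 2 ^ a)
    (hw : ρ ^ w ≤ (1 / 2) ^ b) (hk : w * j ≤ k) (ha : a ≤ b * j) : x * ρ ^ k ≤ 1 := by
  have e : (x : ℝ) ≤ 2 ^ (b * j) := by exact_mod_cast w2 h ha
  have e2 : ρ ^ k ≤ (1 / 2) ^ (b * j) := (pow_le_pow_of_le_one h0 h1 hk).trans (by
    rw [pow_mul, pow_mul]
    gcongr)
  refine (mul_le_mul e e2 (by positivity) (by positivity)).trans_eq ?_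
  rw [← mul_pow]
  norm_num

theorem params {ρ : ℝ} (h0 : 0 ≤ ρ) (h1 : ρ < 1) (Q P d s M : ℕ) (hQ : 0 < Q) (hP : 0 < P)
    (hd : 0 < d) : ∃ e r g n N : ℕ, r < 2 ^ e ∧ 2 ≤ n ∧ M ≤ n + 2 ^ e ∧ e ≤ 2 * g ∧
      N = Q * ((2 ^ e).descFactorial r * P ^ (e + 1)) ∧
      n + 2 ^ e = N * (N * d ^ r * r.factorial) ∧ n + 2 ^ e ≤ 2 ^ g ∧
      (2 ^ e) ^ 2 * ((n * s + 1) * P ^ (e + 1)) ≤ 2 ^ g ∧
      (4 * 2 ^ e * (Q * ((2 ^ e) ^ s * P ^ (e + 1))) : ℕ) * ρ ^ r ≤ 1 ∧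
      (4 * (n + 2 ^ e) * ((n * s + 1) * (Q * ((n + 2 ^ e) ^ s * P ^ (2 * g + 1)))) : ℕ) *
        ρ ^ 2 ^ e ≤ 1 := by
  obtain ⟨c, c1, cQ, cP, cd, cs⟩ : ∃ c, 1 ≤ c ∧ Q ≤ 2 ^ c ∧ P ≤ 2 ^ c ∧ d ≤ 2 ^ c ∧ s + 1 ≤ c := by
    have := (Q + P + d + s + 1).lt_two_pow_self
    exact ⟨Q + P + d + s + 1, by omega, by omega, by omega, by omega, by omega⟩
  obtain ⟨w, hw, w1⟩ := (((tendsto_pow_atTop_nhds_zero_of_lt_one h0 h1).eventually_le_const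
    (show (0 : ℝ) < (1 / 2) ^ (400 * c ^ 2) by positivity)).and (eventually_ge_atTop (M + 1))).exists
  have a0 : w ≤ 2 ^ w := w.lt_two_pow_self.le
  have a1 : w ^ 2 < 2 ^ (4 * w) := (p2 a0 2).trans_lt (Nat.pow_lt_pow_right one_lt_two (by omega))
  have a2 : w * w ^ 3 ≤ 2 ^ (4 * w) := by rw [← pow_succ', mul_comm]; exact p2 a0 4
  have a3 : w + 1 ≤ 2 ^ (4 * w) := w2 w.lt_two_pow_self (by omega)
  have b1 : w ≤ w ^ 2 := Nat.le_self_pow two_ne_zero w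
  have b2 : w ^ 2 ≤ w ^ 3 := Nat.pow_le_pow_right (by omega) (by omega)
  set L := 2 ^ (4 * w) with hL
  set N := Q * (L.descFactorial (w ^ 2) * P ^ (4 * w + 1)) with hN
  have n1 : L ≤ N := by
    have := Nat.descFactorial_mul_descFactorial (n := L) (show 1 ≤ w ^ 2 by omega)
    rw [Nat.descFactorial_one] at this
    exact Nat.le_of_dvd (by have := Nat.descFactorial_pos.2 a1.le; positivity)
      (((Dvd.intro_left _ this).mul_right _).mul_left _)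
  have n2 : N ≤ N * d ^ w ^ 2 * (w ^ 2).factorial := by
    rw [mul_assoc]
    exact Nat.le_mul_of_pos_right _ (by positivity)
  have n3 : N ≤ 2 ^ (c + (4 * w * w ^ 2 + c * (4 * w + 1))) :=
    m2 cQ (m2 ((Nat.descFactorial_le_pow _ _).trans (p2 hL.le _)) (p2 cP _))
  obtain ⟨n, hn⟩ := Nat.exists_eq_add_of_le' (show L ≤ N * (N * d ^ w ^ 2 * (w ^ 2).factorial) by
    nlinarith)
  have c3 : w ^ 3 ≤ c * w ^ 3 := Nat.le_mul_of_pos_left _ c1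
  have c4 : c * w ≤ c * w ^ 2 := Nat.mul_le_mul_left _ b1
  have c5 : c * w ^ 2 ≤ c * w ^ 3 := Nat.mul_le_mul_left _ b2
  have c6 : c ≤ c * w := Nat.le_mul_of_pos_right _ (by omega)
  have n4 : n + L ≤ 2 ^ (23 * (c * w ^ 3)) := by
    rw [← hn]
    exact w2 (m2 n3 (m2 (m2 n3 (p2 cd _)) ((Nat.factorial_le_pow _).trans (p2 (p2 a0 2) _))))
      (by nlinarith)
  have n5 : n * s + 1 ≤ 2 ^ (23 * (c * w ^ 3) + c) :=
    le_trans (by nlinarith) (m2 n4 (cs.trans c.lt_two_pow_self.le))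
  have c7 : c * w ^ 3 ≤ c * (c * w ^ 3) := Nat.le_mul_of_pos_left _ c1
  have c8 : s * (c * w ^ 3) ≤ c * (c * w ^ 3) := Nat.mul_le_mul_right _ (by omega)
  have c9 : c * w ≤ c * (c * w) := Nat.le_mul_of_pos_left _ c1
  have c10 : s * w ≤ c * w := Nat.mul_le_mul_right _ (by omega)
  have c11 : w ≤ c * w := Nat.le_mul_of_pos_left _ c1
  refine ⟨4 * w, w ^ 2, 115 * (c * w ^ 3), n, N, a1, by nlinarith, by omega, by omega, rfl,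
    hn.symm, w2 n4 (by omega), w2 (m2 (p2 hL.le 2) (m2 n5 (p2 cP _))) (by nlinarith),
    r2 h0 h1.le (m2 (m2 (a := 2) le_rfl hL.le) (m2 cQ (m2 (p2 hL.le _) (p2 cP _)))) hw (sq w).ge
      (by nlinarith),
    r2 h0 h1.le (m2 (m2 (a := 2) le_rfl n4) (m2 n5 (m2 cQ (m2 (p2 n4 _) (p2 cP _))))) hw a2
      (by nlinarith)⟩

end Pool.Agent.Lib.JR28
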