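import Pool.Agent.Lib.JR28.Desc
import Pool.Agent.Lib.JR28.Par

/-! Monic integer polynomials with roots in an interval, split at finitely many primes, and with a
prescribed residue at finitely many other primes. -/

set_option autoImplicit false

open Polynomial Finset Filter

namespace Pool.Agent.Lib.JR28

open Pool.Agent.Lib.MP_be0b77_nt

/-- Value of the top part at a node. -/
def Hh (Q n L i : ℕ) (Δ : ℕ → ℤ) : ℤ := ∏ j ∈ range L, (Q : ℤ) * (i - (n + j)) +
  ∑ k ∈ range L, Δ (n + k) * ∏ j ∈ range k, (Q : ℤ) * (i - (n + j))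

theorem Hh_update (Q n i : ℕ) {L : ℕ} (hL : 0 < L) (Δ : ℕ → ℤ) (z z' : ℤ) :
    Hh Q n L i (Function.update Δ n z) - Hh Q n L i (Function.update Δ n z') = z - z' := by
  obtain ⟨L, rfl⟩ := Nat.exists_eq_succ_of_ne_zero hL.ne'
  simp [Hh, sum_range_succ', Function.update_of_ne]

theorem split' {p : ℕ} [Fact p.Prime] {Q : ℕ} (hQ : p.Coprime Q) (n e g : ℕ) (Δ : ℕ → ℤ) {β : ℝ}
    (h1 : (1 / 2) ^ g * ((2 ^ e : ℕ) : ℝ) ^ 2 ≤ β) (h2 : n + 2 ^ e ≤ 2 ^ g)
    (hA : ∀ k < 2 ^ e, ‖(Δ (n + k) : ℚ_[p])‖ ≤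
      ‖(((2 ^ e).descFactorial (2 ^ e - k) : ℕ) : ℚ_[p])‖ * (1 / 2) ^ (e + 1))
    (hB : ∀ i < n, β * ph p (2 ^ e) ≤ ‖(Hh Q n (2 ^ e) i Δ : ℚ_[p])‖)
    (hC : ∀ k < n, ‖(Δ k : ℚ_[p])‖ ≤
      ‖(((n + 2 ^ e).descFactorial (n + 2 ^ e - k) : ℕ) : ℚ_[p])‖ * (1 / 2) ^ (2 * g + 1)) :
    ((wt Q (n + 2 ^ e) + ∑ k ∈ range (n + 2 ^ e), C (Δ k) * wt Q k).map
      (Int.castRingHom ℚ_[p])).Splits := by
  have q1 : ‖(Q : ℚ_[p])‖ = 1 := Padic.norm_natCast_eq_one_iff.2 hQ
  have q0 : (Q : ℚ_[p]) ≠ 0 := norm_pos_iff.1 (q1 ▸ one_pos)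
  have e1 : ∀ k, ‖(Δ k : ℚ_[p]) * Q ^ k / Q ^ (n + 2 ^ e)‖ = ‖(Δ k : ℚ_[p])‖ := fun k => by
    simp [q1]
  have h := (split n (2 ^ e) (by positivity)
    (fun k => (Δ k : ℚ_[p]) * (Q : ℚ_[p]) ^ k / (Q : ℚ_[p]) ^ (n + 2 ^ e))
    (γ := (1 / 2) ^ g) (by positivity) h1
    (by rw [one_div, inv_pow]; exact inv_anti₀ (by positivity) (by exact_mod_cast h2))
    (fun k hk => by
      rw [e1, ← ph_desc hk.le]
      refine (mul_le_mul_of_nonneg_right (hA k hk) (ph_pos k).le).trans_eq ?_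
      rw [Nat.cast_pow 2, Nat.cast_ofNat, ← inv_pow]
      ring)
    (fun i hi => (hB i hi).trans_eq (by
      rw [← one_mul ‖_ + _‖, ← one_pow (2 ^ e), ← q1, ← norm_pow, ← norm_mul, Hh, mul_add, mul_sum]
      push_cast
      simp only [prod_mul_distrib, prod_const, card_range]
      refine congrArg (‖_ + ·‖) (sum_congr rfl fun k _ => ?_)
      rw [pow_add, pow_add]
      field_simp))
    fun k hk => by
      rw [e1, ← ph_desc (a := n + 2 ^ e) (hk.le.trans (n.le_add_right _))]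
      refine (mul_le_mul_of_nonneg_right (hC k hk) (ph_pos k).le).trans_eq ?_
      ring).comp_of_natDegree_le_one (natDegree_C_mul_X (Q : ℚ_[p])⁻¹ (inv_ne_zero q0)).le
  have e2 : ∀ k, (wt Q k).map (Int.castRingHom ℚ_[p]) = C ((Q : ℚ_[p]) ^ k) *
      (∏ i ∈ range k, (X - C (i : ℚ_[p]))).comp (C (Q : ℚ_[p])⁻¹ * X) := fun k => by
    rw [wt, Polynomial.map_prod, Polynomial.prod_comp, C_pow, ← card_range k, ← prod_const, card_range,
      ← prod_mul_distrib]
    refine prod_congr rfl fun i _ => ?_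
    rw [sub_comp, X_comp, C_comp, mul_sub, ← mul_assoc, ← C_mul, mul_inv_cancel₀ q0, ← C_mul]
    simp
  convert h.C_mul ((Q : ℚ_[p]) ^ (n + 2 ^ e)) using 1
  rw [Polynomial.map_add, Polynomial.map_sum, add_comp, Polynomial.sum_comp, mul_add, mul_sum, e2]
  refine congrArg _ (sum_congr rfl fun k _ => ?_)
  rw [Polynomial.map_mul, e2, map_C, mul_comp, C_comp, ← mul_assoc, ← mul_assoc, ← C_mul, ← C_mul,
    mul_div_cancel₀ _ (pow_ne_zero _ q0), eq_intCast]

theorem pick {a Q : ℕ} (ha : 0 < a) (hQ : 0 < Q) (h : a.Coprime Q) (δ : ℤ) (x : ℝ) :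
    ∃ z : ℤ, ∀ j : ℕ, (a : ℤ) ∣ z + j * (Q * a) ∧ (Q : ℤ) ∣ z + j * (Q * a) - δ ∧
      |((z + j * (Q * a) : ℤ) : ℝ) - x| ≤ ((j + 1) * (Q * a) : ℕ) := by
  obtain ⟨u, v, e⟩ := Nat.isCoprime_iff_coprime.2 h
  have h0 : (0 : ℝ) < Q * a := by positivity
  set y := (x - (δ * u * a : ℤ)) / (Q * a) with hy
  refine ⟨δ * u * a + ⌈y⌉ * (Q * a), fun j => ⟨⟨δ * u + ⌈y⌉ * Q + j * Q, by ring⟩,
    ⟨⌈y⌉ * a + j * a - δ * v, by linear_combination δ * e⟩, ?_⟩⟩
  have h1 := mul_le_mul_of_nonneg_right (Int.le_ceil y) h0.le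
  have h2 := mul_le_mul_of_nonneg_right (Int.ceil_lt_add_one y).le h0.le
  have h3 : y * (Q * a) = x - (δ * u * a : ℤ) := div_mul_cancel₀ _ h0.ne'
  have h4 : 0 ≤ (j : ℝ) * (Q * a) := by positivity
  push_cast at h3 ⊢
  rw [abs_le]
  constructor <;> linarith

theorem patch (S : Finset ℕ) (hS : ∀ p ∈ S, p.Prime) {Q : ℕ} (hQ0 : 0 < Q)
    (hQ : ∀ p ∈ S, p.Coprime Q) {b : ℝ} (hb : 4 * Wt S < b) (M : ℕ) :
    ∃ F : ℤ[X], F.Monic ∧ M ≤ F.natDegree ∧ C (Q : ℤ) ∣ derivative F - 1 ∧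
      (∀ z : ℂ, aeval z F = 0 → z.im = 0 ∧ z.re ∈ Set.Icc 0 b) ∧
      ∀ p ∈ S, ∀ [Fact p.Prime], (F.map (Int.castRingHom ℚ_[p])).Splits := by
  obtain ⟨l, l1, l2⟩ := exists_rat_btwn (show Wt S < b / 4 by linarith)
  have W0 : 0 < Wt S := Real.exp_pos _
  have l0 : (0 : ℝ) < l := W0.trans l1
  have ρ0 : 0 ≤ Wt S / l := by positivity
  have ρ1 : Wt S / l < 1 := (div_lt_one l0).2 l1
  have P0 : 0 < ∏ q ∈ S, q := prod_pos fun p hp => (hS p hp).pos
  obtain ⟨e, r, g, n, N, a1, a2, a3, a4, a5, a6, a7, a8, a9, a10⟩ :=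
    params ρ0 ρ1 Q (∏ q ∈ S, q) l.den S.card M hQ0 P0 l.den_pos
  set P := ∏ q ∈ S, q with hP
  set L := 2 ^ e with hL
  set d : ℕ → ℕ := fun k => (if n ≤ k then L else n + L).descFactorial (n + L - k) with hd
  set t : ℕ → ℕ := fun k => if n ≤ k then e + 1 else 2 * g + 1 with ht
  set β : ℝ := ((n * S.card + 1 : ℕ) : ℝ)⁻¹ * (P : ℝ)⁻¹ ^ (e + 1) with hβ
  have d0 : ∀ k, d k ≠ 0 := fun k => (Nat.descFactorial_pos.2 (by split_ifs <;> omega)).ne'
  have L0 : 0 < L := by omega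
  have QN : Q ∣ N := a5 ▸ dvd_mul_right _ _
  obtain ⟨m, hm⟩ : ∃ m, n + L = m + 1 := ⟨n + L - 1, by omega⟩
  have R1 : ∀ i, n + L ≤ i → (B l (n + L) - (wt Q (n + L)).map (Int.castRingHom ℝ)).coeff i = 0 :=
    fun i hi => by
      refine coeff_eq_zero_of_degree_lt ((degree_sub_lt_left ?_ (B_monic _ _).ne_zero ?_).trans_le ?_)
      · rw [degree_eq_natDegree (B_monic _ _).ne_zero, B_natDegree, (wt_monic _ _).1.degree_map,
          degree_eq_natDegree (wt_monic _ _).1.ne_zero, (wt_monic _ _).2]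
      · rw [B_monic, (wt_monic _ _).1.map]
      · rw [degree_eq_natDegree (B_monic _ _).ne_zero, B_natDegree]
        exact_mod_cast hi
  obtain ⟨Δ, μ, -, c1, c2⟩ := desc (wt Q) (wt_monic Q) (B l)
    (fun k => ⟨B_monic _ k, B_natDegree _ k⟩) N (n + L - r)
    (fun k => if n + L - r ≤ k then 0 else
      (((if n < k then 1 else n * S.card + 1) * (Q * (sp S (d k) * P ^ t k)) : ℕ) : ℝ))
    (fun k hk => if_pos hk)
    (fun k Δ => ((Q : ℤ) ∣ Δ k - if k = 1 then 1 else 0) ∧
      (∀ p ∈ S, ∀ [Fact p.Prime], ‖(Δ k : ℚ_[p])‖ ≤ ‖(d k : ℚ_[p])‖ * (1 / 2) ^ t k) ∧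
      (k = n → ∀ p ∈ S, ∀ [Fact p.Prime], ∀ i < n, β * ph p L ≤ ‖(Hh Q n L i Δ : ℚ_[p])‖))
    (fun k Δ Δ' h ⟨h1, h2, h3⟩ => ⟨by rwa [h k le_rfl], by rwa [h k le_rfl], fun hk => by
      simpa only [Hh, fun j => h (n + j) (by omega)] using h3 hk⟩) (n + L)
    (fun k hk Δ x hx => by
      simp only [Function.update_self]
      by_cases h : n + L - r ≤ k
      · obtain ⟨z, rfl⟩ := hx h
        refine ⟨N * z, by simp [h], ?_, fun p hp _ => norm_md hp (d0 k) (e := L.descFactorial r)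
          ((sp_dvd hS _).trans ?_) _ (Dvd.dvd.mul_right ?_ z), fun h => by omega⟩
        · rw [if_neg (by omega), sub_zero]
          exact (Int.natCast_dvd_natCast.2 QN).mul_right z
        · simp only [hd, if_pos (show n ≤ k by omega)]
          exact Dvd.intro_left _ (Nat.descFactorial_mul_descFactorial (by omega))
        · simp only [ht, if_pos (show n ≤ k by omega), a5]
          exact Int.natCast_dvd_natCast.2 (dvd_mul_left _ _)
      obtain ⟨z, hz⟩ := pick (a := sp S (d k) * P ^ t k)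
        (mul_pos (prod_pos fun p hp => pow_pos (hS p hp).pos _) (pow_pos P0 _)) hQ0
        ((Nat.Coprime.prod_left fun p hp => (hQ p hp).pow_left _).mul_left
          ((Nat.Coprime.prod_left hQ).pow_left _)) (if k = 1 then 1 else 0) x
      obtain ⟨j, j1, j2⟩ : ∃ j : ℕ, j + 1 ≤ (if n < k then 1 else n * S.card + 1) ∧ (k = n →
          ∀ p ∈ S, ∀ [Fact p.Prime], ∀ i < n, β * ph p L ≤ ‖(Hh Q n L i (Function.update Δ k
            (z + j * (Q * (sp S (d k) * P ^ t k : ℕ)))) : ℚ_[p])‖) := by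
        rcases eq_or_ne k n with rfl | hk
        swap
        · exact ⟨0, by split_ifs <;> omega, fun h => absurd h hk⟩
        obtain ⟨j, j1, j2⟩ := avoid (range k ×ˢ S) (fun u j => ∃ _ : Fact u.2.Prime,
          ‖(Hh Q k L u.1 (Function.update Δ k (z + j * (Q * (sp S (d k) * P ^ t k : ℕ)))) :
            ℚ_[u.2])‖ < β * ph u.2 L) (by
          rintro ⟨i, p⟩ hu j j1 j' j2 ⟨_, b1⟩ ⟨_, b2⟩
          by_contra hne
          rw [card_product, card_range] at j1 j2
          have b3 := nsub (le_max_left _ _) (le_max_right _ _) |>.trans_lt (max_lt b1 b2)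
          rw [← Int.cast_sub, Hh_update _ _ _ L0, add_sub_add_left_eq_sub, ← sub_mul] at b3
          simp only [hd, ht, le_refl, if_true, Nat.add_sub_cancel_left, Nat.descFactorial_self]
            at b3
          push_cast at b3
          rw [norm_mul, norm_mul, norm_mul, norm_pow,
            Padic.norm_natCast_eq_one_iff.2 (hQ p (mem_product.1 hu).2), one_mul] at b3
          refine b3.not_ge ?_
          rw [hβ, mul_assoc, mul_comm _ (ph p L)]
          have b4 := norm_dvd (p := p) (Int.natCast_dvd_natCast.2 (sp_dvd hS L.factorial))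
          gcongr
          · exact mul_nonneg (ph_pos L).le (by positivity)
          · exact le_norm_sub hne (by exact_mod_cast j1.trans (Nat.le_succ _))
              (by exact_mod_cast j2.trans (Nat.le_succ _))
          · exact_mod_cast b4
          · exact le_norm_nat P0.ne' le_rfl)
        rw [card_product, card_range] at j1
        exact ⟨j, by rw [if_neg (lt_irrefl k)]; omega, fun _ p hp hf i hi => not_lt.1 fun h =>
          j2 (i, p) (mem_product.2 ⟨mem_range.2 hi, hp⟩) ⟨hf, h⟩⟩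
      refine ⟨_, (hz j).2.2.trans ?_, (hz j).2.1,
        fun p hp _ => norm_md hp (d0 k) dvd_rfl _ (hz j).1, j2⟩
      rw [if_neg h]
      exact_mod_cast Nat.mul_le_mul_right _ j1) _ R1
    (fun i hi => by
      rcases le_or_gt (n + L) i with h | h
      · exact ⟨0, by simp only [R1 i h, mul_zero, Int.cast_zero]⟩
      obtain ⟨u, hu⟩ := top_dvd (N := N * l.den ^ r) (r := r) (dvd_mul_coeff_D (n + L) i) dvd_rfl h
        (by omega) (a6 ▸ dvd_mul_left _ _)
      obtain ⟨v, hv⟩ := wt_coeff (Q := Q) (r := r) (a6 ▸ h) (by omega)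
        (mul_dvd_mul_right (dvd_mul_right N _) _)
      obtain ⟨j, hj⟩ := Nat.exists_eq_add_of_le (show n + L - i ≤ r by omega)
      refine ⟨u * l.den ^ j * l.num ^ (n + L - i) - v, ?_⟩
      rw [coeff_sub, coeff_map, ← a6] at *
      rw [hv, hm, B_coeff, ← hm, hu, Rat.cast_def, div_pow, eq_intCast]
      nth_rw 1 [hj]
      push_cast
      field_simp
      ring) 0
  have f0 : (∑ k ∈ range (n + L), C (Δ k) * wt Q k).degree < (wt Q (n + L)).degree := by
    rw [degree_eq_natDegree (wt_monic _ _).1.ne_zero, (wt_monic _ _).2, degree_lt_iff_coeff_zero]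
    intro i hi
    rw [finsetSum_coeff]
    exact sum_eq_zero fun k hk => by
      rw [coeff_C_mul, coeff_eq_zero_of_natDegree_lt
        ((wt_monic Q k).2.trans_lt ((mem_range.1 hk).trans_le hi)), mul_zero]
  refine ⟨wt Q (n + L) + ∑ k ∈ range (n + L), C (Δ k) * wt Q k, (wt_monic _ _).1.add_of_left f0,
    by rwa [natDegree_add_eq_left_of_degree_lt f0, (wt_monic _ _).2], ?_, fun z hz => ?_,
    fun p hp _ => split' (hQ p hp) n e g Δ (β := β) ?_ a7 (fun k hk => ?_)
      ((c1 n (by omega)).1.2.2 rfl p hp) fun k hk => ?_⟩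
  · rw [C_dvd_iff_dvd_coeff]
    intro i
    rw [← ZMod.intCast_zmod_eq_zero_iff_dvd, ← eq_intCast (Int.castRingHom (ZMod Q)), ← coeff_map,
      Polynomial.map_sub, ← derivative_map, Polynomial.map_add, Polynomial.map_sum, wt_mod',
      sum_eq_single_of_mem 1 (mem_range.2 (by omega)) fun k hk h => by
        have := (c1 k (mem_range.1 hk)).1.1
        rw [if_neg h, sub_zero, ← ZMod.intCast_zmod_eq_zero_iff_dvd] at this
        rw [Polynomial.map_mul, map_C, eq_intCast, this, C_0, zero_mul]]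
    have h1 := (c1 1 (by omega)).1.1
    rw [if_pos rfl, ← ZMod.intCast_zmod_eq_zero_iff_dvd, Int.cast_sub, sub_eq_zero] at h1
    have h2 : ((n + L : ℕ) : ZMod Q) = 0 :=
      (ZMod.natCast_eq_zero_iff _ _).2 (a6 ▸ QN.mul_right _)
    rw [Polynomial.map_mul, wt_mod', map_C, eq_intCast, h1, derivative_add, derivative_X_pow, h2]
    simp
  · have key : ∀ a j k : ℕ, 0 < a → n + L - k ≤ a → j + k ≤ n + L →
        (sp S (a.descFactorial (n + L - k)) : ℝ) * l ^ k ≤
          a ^ S.card * (Wt S / l) ^ j * l ^ (n + L) := fun a j k h1 h2 h3 => by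
      refine (mul_le_mul_of_nonneg_right (sp_le hS h1 h2) (by positivity)).trans ?_
      rw [show (a : ℝ) ^ S.card * Wt S ^ (n + L - k) * l ^ k =
          a ^ S.card * (Wt S / l) ^ (n + L - k) * l ^ (n + L) by
        rw [div_pow, ← pow_sub_mul_pow (l : ℝ) (show k ≤ n + L by omega)]
        field_simp]
      exact mul_le_mul_of_nonneg_right (mul_le_mul_of_nonneg_left
        (pow_le_pow_of_le_one ρ0 ρ1.le (by omega)) (by positivity)) (by positivity)
    have lm : (0 : ℝ) < l ^ (n + L) := by positivity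
    have k1 : ∀ k ≤ n, |μ k| * l ^ k ≤ l ^ (n + L) / (4 * (n + L : ℕ)) := fun k hk => by
      have h1 := (c1 k (by omega)).2
      rw [if_neg (by omega), if_neg (by omega)] at h1
      have h2 : (sp S (d k) : ℝ) * l ^ k ≤ (n + L : ℕ) ^ S.card * (Wt S / l) ^ L * l ^ (n + L) := by
        refine (key _ L k (by split_ifs <;> omega) (by split_ifs <;> omega) (by omega)).trans ?_
        gcongr
        split_ifs <;> omega
      have h3 : (P : ℝ) ^ t k ≤ P ^ (2 * g + 1) := by
        exact_mod_cast Nat.pow_le_pow_right P0 (by simp only [ht]; split_ifs <;> omega)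
      have h4 := mul_le_mul h2 h3 (by positivity) (by positivity)
      rw [le_div_iff₀ (by positivity)]
      refine le_trans ?_ (mul_le_of_le_one_left lm.le a10)
      refine (mul_le_mul_of_nonneg_right (mul_le_mul_of_nonneg_right h1 (by positivity))
        (by positivity)).trans ?_
      have h5 := mul_le_mul_of_nonneg_left h4 (show (0 : ℝ) ≤ 4 * (n + L) * (n * S.card + 1) * Q by
        positivity)
      push_cast at h5 ⊢
      linarith
    have k2 : ∀ k < L, |μ (n + k)| * l ^ (n + k) ≤ l ^ (n + L) / (4 * L) := fun k hk => by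
      rcases Nat.eq_zero_or_pos k with rfl | h0
      · refine (k1 n le_rfl).trans ?_
        gcongr
        omega
      have h1 := (c1 (n + k) (by omega)).2
      by_cases h : n + L - r ≤ n + k
      · rw [if_pos h, abs_nonpos_iff] at h1
        rw [h1, abs_zero, zero_mul]
        positivity
      simp only [if_neg h, if_pos (show n < n + k by omega), hd, ht,
        if_pos (Nat.le_add_right n k)] at h1
      have h2 := key L r (n + k) L0 (by omega) (by omega)
      rw [le_div_iff₀ (by positivity)]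
      refine le_trans ?_ (mul_le_of_le_one_left lm.le a9)
      refine (mul_le_mul_of_nonneg_right (mul_le_mul_of_nonneg_right h1 (by positivity))
        (by positivity)).trans ?_
      have h5 := mul_le_mul_of_nonneg_left h2 (show (0 : ℝ) ≤ 4 * L * Q * P ^ (e + 1) by
        positivity)
      push_cast at h5 ⊢
      linarith
    have k3 := sum_le_card_nsmul (range n) _ _ fun k hk => k1 k (mem_range.1 hk).le
    have k4 := sum_le_card_nsmul (range L) _ _ fun k hk => k2 k (mem_range.1 hk)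
    rw [card_range, nsmul_eq_mul] at k3 k4
    have k5 : n * ((l : ℝ) ^ (n + L) / (4 * (n + L : ℕ))) ≤ l ^ (n + L) / 4 := by
      rw [← div_div, mul_div_left_comm]
      exact mul_le_of_le_one_right (by positivity) (div_le_one_of_le₀
        (by exact_mod_cast Nat.le_add_right n L) (by positivity))
    have k6 : L * ((l : ℝ) ^ (n + L) / (4 * L)) = l ^ (n + L) / 4 := by field_simp
    obtain ⟨z1, z2, z3⟩ := roots_B l0 m μ (by rw [← hm, sum_range_add]; linarith) z (by
      rw [sub_add_eq_add_sub, sub_eq_iff_eq_add'] at c2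
      rw [← hm, c2, ← Polynomial.map_add]
      exact (aeval_map_algebraMap ℝ z _).trans hz)
    exact ⟨z1, z2, by linarith⟩
  · have h : ((L ^ 2 * ((n * S.card + 1) * P ^ (e + 1)) : ℕ) : ℝ) ≤ 2 ^ g := by exact_mod_cast a8
    rw [hβ, one_div, inv_pow, inv_pow, ← mul_inv, inv_mul_le_iff₀ (by positivity),
      le_mul_inv_iff₀ (by positivity)]
    exact_mod_cast h
  · simpa only [hd, ht, if_pos (Nat.le_add_right n k), Nat.add_sub_add_left] using
      (c1 (n + k) (by omega)).1.2.1 p hp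
  · simpa only [hd, ht, if_neg hk.not_ge] using (c1 k (by omega)).1.2.1 p hp

end Pool.Agent.Lib.JR28
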