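import Pool.Agent.Lib.JR28.Fek
import Pool.Agent.Lib.BK2.NFMk1
import Pool.Agent.Lib.BK2.NFMk2

/-! Completely split primes, and finite sets of them with weight in a prescribed window. -/

set_option autoImplicit false

open Polynomial Finset Filter NumberField

namespace Pool.Agent.Lib.JR28

theorem splits_of_hom {p : ℕ} [hp : Fact p.Prime] (g : ℤ[X]) (hg : g.Monic) {R : Type}
    [CommRing R] (ψ : R →+* ZMod p) (T : Finset R) (hT : ∀ y ∈ T, aeval y g = 0)
    (hc : T.card = g.natDegree) (hi : Set.InjOn ψ T) :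
    (g.map (Int.castRingHom ℚ_[p])).Splits := by
  classical
  have hm := hg.map (Int.castRingHom ℚ_[p])
  set s := T.image fun y => (ψ y).val with hs
  have h1 : s.card = g.natDegree := by
    rw [hs, card_image_of_injOn fun y hy z hz h => hi hy hz (ZMod.val_injective p h), hc]
  have h2 : ∀ i ∈ s, ∀ k ∈ s, i ≠ k → 1 ≤ ‖(i : ℚ_[p]) - k‖ := fun i hi k hk h => by
    obtain ⟨y, -, rfl⟩ := mem_image.1 hi
    obtain ⟨z, -, rfl⟩ := mem_image.1 hk
    rw [← not_lt, ← Int.cast_natCast, ← Int.cast_natCast (ψ z).val, ← Int.cast_sub,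
      Padic.norm_intCast_lt_one_iff, ← ZMod.intCast_zmod_eq_zero_iff_dvd]
    simpa [sub_eq_zero] using fun e => h (congrArg _ e)
  have p1 : (1 : ℝ) < p := by exact_mod_cast hp.out.one_lt
  obtain ⟨ρ, -, e⟩ := perturb s (fun i => (i : ℚ_[p]))
    (g.map (Int.castRingHom ℚ_[p]) - ∏ i ∈ s, (X - C (i : ℚ_[p]))) (γ := 1)
    (τ := (p : ℝ) ^ (-(1 : ℕ) : ℤ)) (by positivity) (zpow_lt_one_of_neg₀ p1 (by simp)) h2
    (by
      have d : (g.map (Int.castRingHom ℚ_[p])).degree = s.card := by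
        rw [degree_eq_natDegree hm.ne_zero, hg.natDegree_map, h1]
      refine (degree_sub_lt_left ?_ hm.ne_zero ?_).trans_eq d
      · rw [d, ← Lagrange.nodal_eq, Lagrange.degree_nodal]
      · rw [hm, monic_prod_X_sub_C])
    fun i hi => by
      rw [eval_sub, ← Lagrange.nodal_eq, Lagrange.eval_nodal_at_node
        (v := fun i : ℕ => (i : ℚ_[p])) hi, sub_zero]
      refine le_trans ?_ (le_mul_of_one_le_right (by positivity) (one_le_prod fun k hk =>
        h2 i hi k (mem_of_mem_erase hk) (ne_of_mem_erase hk).symm))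
      obtain ⟨y, hy, rfl⟩ := mem_image.1 hi
      rw [eval_natCast_map, eq_intCast, Padic.norm_int_le_pow_iff_dvd, pow_one,
        ← ZMod.intCast_zmod_eq_zero_iff_dvd, ← eq_intCast (Int.castRingHom (ZMod p)),
        ← eval_natCast_map, ZMod.natCast_zmod_val, ← eval₂_eq_eval_map]
      exact (aeval_algHom_apply ψ.toIntAlgHom y g).trans (by rw [hT y hy, map_zero])
  rw [add_sub_cancel] at e
  rw [e]
  exact Splits.prod fun i _ => Splits.X_sub_C _

open Pool.Agent.Lib.BK2 Pool.Agent.Lib.helper22.PIT in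
theorem window (L : Type) [Field L] [NumberField L] (N : ℕ) {u v : ℝ} (huv : u < v) (hv : 0 < v) :
    ∃ S : Finset ℕ, (∀ p ∈ S, p.Prime ∧ N < p ∧ Nonempty (𝓞 L →+* ZMod p)) ∧
      u < ∑ p ∈ S, om p ∧ ∑ p ∈ S, om p < v := by
  classical
  obtain ⟨M, hM⟩ := eventually_atTop.1 ((((Real.tendsto_pow_log_div_mul_add_atTop 1 (-1) 1
    one_ne_zero).comp tendsto_natCast_atTop_atTop).eventually_lt_const (sub_pos.2 huv)).and
    (eventually_gt_atTop N))
  set S : ℕ → Finset ℕ := fun n => (range n).filter fun p =>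
    p.Prime ∧ M ≤ p ∧ Nonempty (𝓞 L →+* ZMod p) with hS
  have h1 : ∃ n, u < ∑ p ∈ S n, om p := by
    by_contra! h
    obtain ⟨A, hA⟩ := stMK1 L
    obtain ⟨B, hB⟩ := NFMK2.non_prime L
    obtain ⟨n, h2, h3⟩ := (((Real.tendsto_log_atTop.comp
      tendsto_natCast_atTop_atTop).eventually_gt_atTop (A + B + (∑ k ∈ range M, LamK L k / k +
        Module.finrank ℤ (𝓞 L) * u))).and (eventually_ge_atTop 1)).exists
    have h4 := (abs_le.1 (hA n h3)).1
    have h5 := hB n
    have h0 : ∀ k : ℕ, 0 ≤ LamK L k / k := fun k => div_nonneg (LamK_nonneg L k) k.cast_nonneg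
    have h6 : ∑ k ∈ (Icc 1 n).filter Nat.Prime, LamK L k / k ≤
        ∑ k ∈ range M, LamK L k / k + ∑ k ∈ S (n + 1), LamK L k / k := by
      rw [← sum_union (disjoint_left.2 fun k hk hk' =>
        absurd (mem_range.1 hk) (not_lt.2 (mem_filter.1 hk').2.2.1)), ← sum_filter_ne_zero]
      refine sum_le_sum_of_subset_of_nonneg (fun k hk => ?_) fun k _ _ => h0 k
      obtain ⟨a, b⟩ := mem_filter.1 hk
      obtain ⟨a, c⟩ := mem_filter.1 a
      refine mem_union.2 ((lt_or_ge k M).imp mem_range.2 fun d => mem_filter.2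
        ⟨mem_range.2 (Nat.lt_succ_of_le (mem_Icc.1 a).2), c, d, ?_⟩)
      rw [NFMK2.lam_prime L c, ← NFMK2.card_hom L c] at b
      exact (Nat.card_ne_zero.1 fun e => b (by simp [e])).1
    have h7 : ∑ k ∈ S (n + 1), LamK L k / k ≤ Module.finrank ℤ (𝓞 L) * u := by
      refine le_trans ?_ (mul_le_mul_of_nonneg_left (h (n + 1)) (Nat.cast_nonneg _))
      rw [mul_sum]
      refine sum_le_sum fun k hk => ?_
      have h8 := (mem_filter.1 hk).2.1
      have h9 : (1 : ℝ) < k := by exact_mod_cast h8.one_lt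
      rw [om, ← mul_div_assoc, ← ArithmeticFunction.vonMangoldt_apply_prime h8]
      exact div_le_div₀ ((LamK_nonneg L k).trans (LamK_le L k)) (LamK_le L k) (by linarith)
        (by linarith)
    rw [← sum_filter_add_sum_filter_not _ Nat.Prime] at h4
    simp only [Function.comp] at h2
    linarith
  refine ⟨S (Nat.find h1), fun p hp => ?_, Nat.find_spec h1, ?_⟩
  · obtain ⟨a, b, c⟩ := (mem_filter.1 hp).2
    exact ⟨a, (hM p b).2, c⟩
  rcases h2 : Nat.find h1 with _ | n
  · simpa [hS] using hv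
  have h3 := not_lt.1 (Nat.find_min h1 (n.lt_succ_self.trans_eq h2.symm))
  simp only [hS, range_add_one, filter_insert] at h3 ⊢
  split_ifs with h4
  · have h5 := (hM n h4.2.1).1
    simp only [Function.comp, pow_one, one_mul, ← sub_eq_add_neg] at h5
    rw [sum_insert (by simp), om]
    linarith
  · linarith

end Pool.Agent.Lib.JR28
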