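import Pool.Agent.Lib.JR28.Fld
import Pool.Agent.Lib.JR28.Patch

/-! One step of the tower. -/

set_option autoImplicit false

open Polynomial Finset Filter NumberField IntermediateField

namespace Pool.Agent.Lib.JR28

theorem sep_of_dvd {F : ℤ[X]} (hF : F.Monic) {Q : ℕ} (hQ : 2 ∣ Q) (h : C (Q : ℤ) ∣ derivative F - 1) :
    (F.map (algebraMap ℤ ℚ)).Separable := by
  rw [separable_def, isCoprime_iff_aeval_ne_zero_of_isAlgClosed ℚ ℂ]
  by_contra! hc
  obtain ⟨z, h1, h2⟩ := hc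
  obtain ⟨c, rfl⟩ := hQ
  obtain ⟨G, hG⟩ := h
  rw [aeval_map_algebraMap] at h1
  rw [derivative_map, aeval_map_algebraMap, eq_add_of_sub_eq hG] at h2
  have h3 : IsIntegral ℤ (-(c * aeval z G)) := ((isIntegral_natCast c).mul (IsIntegral.of_mem_of_fg _
    (IsIntegral.fg_adjoin_singleton ⟨F, hF, h1⟩) _ (aeval_mem_adjoin_singleton ℤ z))).neg
  rw [show -(c * aeval z G) = algebraMap ℚ ℂ (1 / 2) by
    rw [map_add, map_mul, aeval_C, map_one, eq_intCast] at h2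
    rw [eq_ratCast]
    push_cast at h2 ⊢
    linear_combination -h2 / 2, isIntegral_algebraMap_iff (algebraMap ℚ ℂ).injective,
    IsIntegrallyClosed.isIntegral_iff] at h3
  obtain ⟨y, hy⟩ := h3
  have : (2 * y : ℤ) = 1 := by
    rw [eq_intCast] at hy
    exact_mod_cast (show (2 * y : ℚ) = 1 by rw [hy]; norm_num)
  omega

theorem core {E : Type} [Field E] [NumberField E] (j : E →ₐ[ℚ] ℂ) (S : Finset ℕ) (g F : ℤ[X])
    (hg : g.Monic) (hF : F.Monic) (hE : ((g * F).map (algebraMap ℤ ℚ)).IsSplittingField ℚ E)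
    (h1 : ∀ p ∈ S, ∀ [Fact p.Prime], (g.map (Int.castRingHom ℚ_[p])).Splits)
    (h2 : ∀ p ∈ S, ∀ [Fact p.Prime], (F.map (Int.castRingHom ℚ_[p])).Splits) (a : ℝ) (M Q : ℕ)
    (hM : ∀ y ∈ Bs S a ∪ Rt g, ∀ z ∈ Bs S a ∪ Rt g, IsIntegral ℤ (M / (y - z)))
    (hQ : ∀ q : ℕ, q.Prime → q ∣ M → q ∈ S ∨ q ∣ Q) (hd : C (Q : ℤ) ∣ derivative F - 1) (y : E)
    (hy : In a (j y)) : j y ∈ Lg g := by
  have := Normal.of_isSplittingField (E := E) ((g * F).map (algebraMap ℤ ℚ))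
  have : IsGalois ℚ E := ⟨⟩
  have e1 : ∀ p ∈ S, ∀ [Fact p.Prime], Nonempty (E →ₐ[ℚ] ℚ_[p]) := fun p hp _ =>
    ⟨IsSplittingField.lift _ ((g * F).map (algebraMap ℤ ℚ)) (by
      rw [map_int, Polynomial.map_mul]
      exact (h1 p hp).mul (h2 p hp))⟩
  have e2 : j y ∈ Bs S a := ⟨hy, fun p hp _ => by
    obtain ⟨ι⟩ := e1 p hp
    have := (Normal.splits (F := ℚ) inferInstance y).map ι.toRingHom
    rwa [Polynomial.map_map, ← minpoly.algHom_eq j j.injective,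
      show ι.toRingHom.comp _ = _ from ι.comp_algebraMap] at this⟩
  have e3 : ∀ x, IsIntegral ℤ (j x) → IsIntegral ℤ x := fun x =>
    (isIntegral_algHom_iff (j.restrictScalars ℤ) j.injective).1
  have e4 : ∀ x : E, aeval x g = 0 → j x ∈ Rt g := fun x h =>
    (aeval_algHom_apply (j.restrictScalars ℤ) x g).trans (by rw [h, map_zero])
  change y ∈ (Lg g).comap j
  rw [← IsGalois.fixedField_fixingSubgroup ((Lg g).comap j), mem_fixedField_iff]
  intro σ hσ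
  obtain ⟨τ, t1, t2⟩ := indep S (fun p hp _ => (e1 p hp).map fun ι => ι.toRingHom)
    {x : E | j x ∈ Bs S a ∪ Rt g} (fun x hx => ⟨e3 x (hx.elim (·.1.1) fun h => ⟨g, hg, h⟩),
      fun σ => by
        have c : IsConjRoot ℚ (j x) (j (σ x)) :=
          (isConjRoot_algHom_iff j).2 (isConjRoot_of_algEquiv x σ)
        exact hx.imp (fun h => ⟨⟨int_conj h.1.1 c, fun z hz => h.1.2 z (c.trans hz)⟩,
          fun p hp _ => c ▸ h.2 p hp⟩) fun h => Rt_conj h c⟩) M Q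
    (fun x hx z hz _ => e3 _ (by simpa using hM _ hx _ hz)) hQ F hF hd σ
  have e5 : σ.toAlgHom = τ.toAlgHom := AlgHom.ext_of_adjoin_eq_top
    (IsSplittingField.adjoin_rootSet _ ((g * F).map (algebraMap ℤ ℚ))) fun r hr => by
      rw [mem_rootSet_of_ne ((hg.mul hF).map _).ne_zero, aeval_map_algebraMap, map_mul,
        mul_eq_zero] at hr
      rcases hr with hr | hr
      · exact ((mem_fixingSubgroup_iff _ σ).1 hσ r (subset_adjoin _ _ (e4 r hr))).trans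
          (t1 r (Or.inr (e4 r hr))).symm
      · exact t2 r hr
  exact (DFunLike.congr_fun e5 _).trans (t1 _ (Or.inl e2))

/-- The property of a step. -/
def Stp (a b : ℝ) : Prop := ∀ g : ℤ[X], g.Monic → ∃ F : ℤ[X], F.Monic ∧
  (∀ z ∈ Rt F, z.im = 0 ∧ z.re ∈ Set.Icc 0 b) ∧ (∀ y ∈ Lg (g * F), In a y → y ∈ Lg g) ∧
  ∃ α ∈ Rt F, α ∉ Lg g

theorem step0 {a b : ℝ} (ha : 0 < a) (hab : a < b) (hb : 4 < b) (g : ℤ[X]) (hg : g.Monic)
    (hs : (g.map (algebraMap ℤ ℚ)).Separable) : ∃ F : ℤ[X], F.Monic ∧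
    (∀ z ∈ Rt F, z.im = 0 ∧ z.re ∈ Set.Icc 0 b) ∧ (∀ y ∈ Lg (g * F), In a y → y ∈ Lg g) ∧
    ∃ α ∈ Rt F, α ∉ Lg g := by
  classical
  have := Lg_nf hg
  obtain ⟨N, hN⟩ := split_primes (Lg g) g hg (map_int (k := Lg g) g ▸ hs.map)
    (map_int (k := Lg g) g ▸ (Lg_split hg).splits)
  obtain ⟨S, s1, s2, s3⟩ := window (Lg g) (N + 2) (u := Real.log (a / 4)) (v := Real.log (b / 4))
    (Real.log_lt_log (by positivity) (by linarith)) (Real.log_pos (by linarith))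
  rw [Real.log_lt_iff_lt_exp (by positivity)] at s2
  rw [Real.lt_log_iff_exp_lt (by positivity)] at s3
  have hS : ∀ p ∈ S, p.Prime := fun p hp => (s1 p hp).1
  obtain ⟨M, M0, hM⟩ := denom ((finB S hS ha (by rw [Wt]; linarith)).union (Rt_fin hg))
    fun y hy => hy.elim (·.1.1) fun h => ⟨g, hg, h⟩
  obtain ⟨F, f1, f2, f3, f4, f5⟩ := patch S hS (Q := 2 * ∏ q ∈ M.primeFactors \ S, q)
    (mul_pos two_pos (prod_pos fun q hq => (Nat.prime_of_mem_primeFactors (mem_sdiff.1 hq).1).pos))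
    (fun p hp => ((Nat.coprime_primes (hS p hp) Nat.prime_two).2
      (by have := (s1 p hp).2.1; omega)).mul_right (Nat.Coprime.prod_right fun q hq =>
        (Nat.coprime_primes (hS p hp) (Nat.prime_of_mem_primeFactors (mem_sdiff.1 hq).1)).2
          fun h => (mem_sdiff.1 hq).2 (h ▸ hp)))
    (b := b) (by rw [Wt]; linarith) ((finL (Lg g) b).toFinset.card + 1)
  refine ⟨F, f1, f4, fun y hy hya => ?_, ?_⟩
  · have := Lg_nf (hg.mul f1)
    exact core (Lg (g * F)).val S g F hg f1 (Lg_split (hg.mul f1))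
      (fun p hp _ => hN p (by have := (s1 p hp).2.1; omega) (s1 p hp).2.2) f5 a M _ hM
      (fun q hq h => (em (q ∈ S)).imp_right fun h' => (dvd_prod_of_mem (fun q => q)
        (mem_sdiff.2 ⟨Nat.mem_primeFactors.2 ⟨hq, h, M0⟩, h'⟩)).mul_left 2) f3 ⟨y, hy⟩ hya
  · by_contra! hc
    have h1 := card_rootSet_eq_natDegree (K := ℂ) (sep_of_dvd f1 (dvd_mul_right _ _) f3)
      (IsAlgClosed.splits _)
    rw [f1.natDegree_map, ← Set.toFinset_card] at h1
    refine (Nat.lt_of_succ_le f2).not_ge (h1 ▸ card_le_card fun z hz => ?_)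
    rw [Set.mem_toFinset, ← Rt_eq f1] at hz
    exact (Set.Finite.mem_toFinset _).2 ⟨hc z hz, ⟨F, f1, hz⟩, fun w hw => f4 w (Rt_conj hz hw)⟩

theorem step {a b : ℝ} (ha : 0 < a) (hab : a < b) (hb : 4 < b) : Stp a b := fun g hg => by
  obtain ⟨f, f1, f2, f3, -⟩ := poly_of_set (Rt_fin hg).toFinset
    fun y hy => ⟨g, hg, (Rt_fin hg).mem_toFinset.1 hy⟩
  have e : Rt f = Rt g := Set.ext fun z => (f3 z).trans
    ⟨fun ⟨y, hy, h⟩ => Rt_conj ((Set.Finite.mem_toFinset _).1 hy) h,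
      fun h => ⟨z, (Set.Finite.mem_toFinset _).2 h, rfl⟩⟩
  simpa only [Lg, Rt_mul, e] using step0 ha hab hb f f1 f2

end Pool.Agent.Lib.JR28
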